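import Pool.Agent.KS6_63.GFF.C.hyp_step_
import Pool.Agent.KS6_63.GFF.C.hyp_base_

/-!
Quantitative form of the recursion of `hyp_step`, `hyp_base`: the cheap arm at level `u` exists up to
probability `K / u`, at all scales.
-/

open MeasureTheory ProbabilityTheory

namespace H941.hypQ

open H941.hyp_step H941.hyp_base

lemma sum_boundQ : ∃ (K : ℝ) (u0 : ℕ), 0 < K ∧ ∀ u ≥ u0, ∀ w : ℕ, ParC u w →
    (∀ w' : ℕ, 128 ≤ w' → w' < w → HypA u 12 (1 / 64) w') →
    ∑ a1 ∈ Finset.range (2 * cc w 0), ∑ a2 ∈ Finset.range (2 * cc w 0), (TT685 u w 2 ((a1 : ℤ), (a2 : ℤ)) +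
      ∑ k ∈ Finset.range (nb u w - 2), ENNReal.ofReal (wt685 u w k) * TT685 u w (2 + k + 1) ((a1 : ℤ), (a2 : ℤ))) ≤
     ENNReal.ofReal ((2 * (cc w 0 : ℝ)) ^ 2 * (K / u)) := by
  obtain ⟨C1, u1, hC1, h1⟩ := level_bound685
  obtain ⟨C2, u2, hC2, h2⟩ := bottom_bound685
  set C4 : ℝ := max C1 C2 with hC4
  have hC4p : 0 < C4 := lt_of_lt_of_le hC1 (le_max_left _ _)
  refine ⟨5632 * C4, u1 + u2 + 1, by positivity, fun u hu w hpar hyp => ?_⟩
  have hlev : ∀ i, 2 ≤ i → i ≤ nb u w →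
      ∑ a1 ∈ Finset.range (2 * cc w 0), ∑ a2 ∈ Finset.range (2 * cc w 0), TT685 u w i ((a1 : ℤ), (a2 : ℤ)) ≤
     ENNReal.ofReal ((2 * (cc w 0 : ℝ)) ^ 2 * (64 ^ i * (C4 / (((i : ℝ) + u) ^ 2 * ((i : ℝ) + u) ^ 9)))) := by
    intro i hi2 hin
    rcases lt_or_eq_of_le hin with hlt | heq
    · refine (h1 u (by omega) w hpar hyp i hi2 hlt).trans (ENNReal.ofReal_le_ofReal ?_)
      have : C1 ≤ C4 := le_max_left _ _
      gcongr
    · rw [heq]
      refine (h2 u (by omega) w hpar).trans (ENNReal.ofReal_le_ofReal ?_)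
      have : C2 ≤ C4 := le_max_right _ _
      gcongr
  have hn4 := hpar.n_ge
  have hwpos : 0 < w := by
    obtain ⟨e1, e2, e3⟩ := hpar.wi_ge 0 (Nat.zero_le _)
    have hu6 := hpar.u_ge
    have : 1 ≤ (Nat.log 2 w + u) ^ 16 := Nat.one_le_pow _ _ (by omega)
    simp at e3
    omega
  have hwR : (0 : ℝ) < w := by exact_mod_cast hwpos
  have hu1 : (1 : ℝ) ≤ u := by
    have : 1 ≤ u := by omega
    exact_mod_cast this
  set L : ℝ := 2 * (cc w 0 : ℝ) with hL
  have e0 : ∑ a1 ∈ Finset.range (2 * cc w 0), ∑ a2 ∈ Finset.range (2 * cc w 0), (TT685 u w 2 ((a1 : ℤ), (a2 : ℤ)) +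
      ∑ k ∈ Finset.range (nb u w - 2), ENNReal.ofReal (wt685 u w k) * TT685 u w (2 + k + 1) ((a1 : ℤ), (a2 : ℤ))) =
      (∑ a1 ∈ Finset.range (2 * cc w 0), ∑ a2 ∈ Finset.range (2 * cc w 0), TT685 u w 2 ((a1 : ℤ), (a2 : ℤ))) +
      ∑ k ∈ Finset.range (nb u w - 2), ENNReal.ofReal (wt685 u w k) * 
        ∑ a1 ∈ Finset.range (2 * cc w 0), ∑ a2 ∈ Finset.range (2 * cc w 0), TT685 u w (2 + k + 1) ((a1 : ℤ), (a2 : ℤ)) := by
    simp only [Finset.sum_add_distrib]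
    congr 1
    rw [Finset.sum_congr rfl (fun a1 _ => Finset.sum_comm), Finset.sum_comm]
    refine Finset.sum_congr rfl fun k _ => ?_
    rw [Finset.mul_sum]
    refine Finset.sum_congr rfl fun a1 _ => ?_
    rw [Finset.mul_sum]
  rw [e0]
  have e1 : ∀ k ∈ Finset.range (nb u w - 2), ENNReal.ofReal (wt685 u w k) * 
        ∑ a1 ∈ Finset.range (2 * cc w 0), ∑ a2 ∈ Finset.range (2 * cc w 0), TT685 u w (2 + k + 1) ((a1 : ℤ), (a2 : ℤ)) ≤
        ENNReal.ofReal (L ^ 2 * (1536 * C4 * (1 / ((k : ℝ) + 1 + (2 + u)) ^ 2))) := by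
    intro k hk
    rw [Finset.mem_range] at hk
    refine (mul_le_mul' le_rfl (hlev (2 + k + 1) (by omega) (by omega))).trans ?_
    rw [← ENNReal.ofReal_mul (wt_nonneg685 u w k)]
    apply ENNReal.ofReal_le_ofReal
    obtain ⟨f1, f2, f3⟩ := hpar.wi_ge (2 + k) (by omega)
    have f4 : (64 : ℝ) ^ (2 + k) * (wi w (2 + k) : ℝ) ≤ 6 * w := by exact_mod_cast f3
    have f5 := term_num685 C4 (((2 + k : ℕ) : ℝ) + u) (((2 + k + 1 : ℕ) : ℝ) + u) (wi w (2 + k)) w (64 ^ (2 + k)) L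
      (by positivity) (by push_cast; linarith) hC4p.le (by positivity) hwR (by positivity) f4
    have f6 : (64 : ℝ) ^ (2 + k + 1) = 64 * 64 ^ (2 + k) := by ring
    have f7 : (k : ℝ) + 1 + (2 + u) = ((2 + k + 1 : ℕ) : ℝ) + u := by push_cast; ring
    unfold wt685
    rw [f6, f7]
    exact f5
  have e2 : ∑ a1 ∈ Finset.range (2 * cc w 0), ∑ a2 ∈ Finset.range (2 * cc w 0), TT685 u w 2 ((a1 : ℤ), (a2 : ℤ)) ≤
      ENNReal.ofReal (L ^ 2 * (4096 * C4 * (1 / u))) := by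
    refine (hlev 2 le_rfl (by omega)).trans (ENNReal.ofReal_le_ofReal ?_)
    have g1 : (u : ℝ) ≤ (((2 : ℕ) : ℝ) + u) ^ 2 * (((2 : ℕ) : ℝ) + u) ^ 9 := by
      have g2 : (1 : ℝ) ≤ ((2 : ℕ) : ℝ) + u := by push_cast; linarith
      calc (u : ℝ) ≤ ((2 : ℕ) : ℝ) + u := by push_cast; linarith
        _ ≤ (((2 : ℕ) : ℝ) + u) ^ 11 := le_self_pow₀ g2 (by norm_num)
        _ = _ := by ring
    have g3 : C4 / ((((2 : ℕ) : ℝ) + u) ^ 2 * (((2 : ℕ) : ℝ) + u) ^ 9) ≤ C4 * (1 / u) := by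
      rw [mul_one_div]
      exact div_le_div_of_nonneg_left hC4p.le (by linarith) g1
    calc L ^ 2 * (64 ^ 2 * (C4 / ((((2 : ℕ) : ℝ) + u) ^ 2 * (((2 : ℕ) : ℝ) + u) ^ 9))) 
        ≤ L ^ 2 * (64 ^ 2 * (C4 * (1 / u))) := by gcongr
      _ = L ^ 2 * (4096 * C4 * (1 / u)) := by ring
  refine (add_le_add e2 (Finset.sum_le_sum e1)).trans ?_
  rw [← ENNReal.ofReal_sum_of_nonneg (fun k _ => by positivity), ← ENNReal.ofReal_add (by positivity)
    (Finset.sum_nonneg fun k _ => by positivity)]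
  apply ENNReal.ofReal_le_ofReal
  have e3 := sum_inv_sq685 (2 + u) (by linarith) (nb u w - 2)
  have e4 : (1 : ℝ) / (2 + u) ≤ 1 / u := one_div_le_one_div_of_le (by linarith) (by linarith)
  rw [← Finset.mul_sum, ← Finset.mul_sum]
  have e5 : 1536 * C4 * ∑ k ∈ Finset.range (nb u w - 2), 1 / ((k : ℝ) + 1 + (2 + u)) ^ 2 ≤ 1536 * C4 * (1 / u) :=
    mul_le_mul_of_nonneg_left (e3.trans e4) (by positivity)
  calc L ^ 2 * (4096 * C4 * (1 / u)) + L ^ 2 * (1536 * C4 * ∑ k ∈ Finset.range (nb u w - 2), 1 / ((k : ℝ) + 1 + (2 + u)) ^ 2)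
      ≤ L ^ 2 * (4096 * C4 * (1 / u)) + L ^ 2 * (1536 * C4 * (1 / u)) := by gcongr
    _ = L ^ 2 * (5632 * C4 * (1 / u)) := by ring
    _ = L ^ 2 * (5632 * C4 / u) := by ring

theorem hyp_stepQ : ∃ (K : ℝ) (u0 : ℕ), 0 < K ∧ ∀ u ≥ u0, ∀ w : ℕ, 64 ^ 5 * (Nat.log 2 w + u) ^ 16 ≤ w →
    (∀ w' : ℕ, 128 ≤ w' → w' < w → HypA u 12 (1 / 64) w') → HypA u 12 (K / u) w := by
  obtain ⟨u1, hu1⟩ := parC_holds
  obtain ⟨K, u2, hK, hu2⟩ := sum_boundQ
  refine ⟨K, u1 + u2, hK, fun u hu w hw hyp => ?_⟩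
  have hpar := hu1 u (by omega) w hw
  have hsum := hu2 u (by omega) w hpar hyp
  have hn4 := hpar.n_ge
  have hcc : 0 < 2 * cc w 0 := by
    have := (hpar.cc_fac 0 (by omega)).1
    omega
  have hwpos : 0 < w := by
    obtain ⟨e1, e2, e3⟩ := hpar.wi_ge 0 (Nat.zero_le _)
    have hu6 := hpar.u_ge
    have : 1 ≤ (Nat.log 2 w + u) ^ 16 := Nat.one_le_pow _ _ (by omega)
    simp at e3
    omega
  have hwR : (0 : ℝ) < w := by exact_mod_cast hwpos
  obtain ⟨a1, a2, ha⟩ := shift685 (2 * cc w 0) hcc (fun a1 a2 => (TT685 u w 2 ((a1 : ℤ), (a2 : ℤ)) +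
      ∑ k ∈ Finset.range (nb u w - 2), ENNReal.ofReal (wt685 u w k) * TT685 u w (2 + k + 1) ((a1 : ℤ), (a2 : ℤ)))) (K / u)
      (by push_cast; exact hsum)
  set a : ℤ × ℤ := ((a1 : ℤ), (a2 : ℤ)) with hadef
  obtain ⟨hG1, hG2, hG3⟩ := GC_facts u w hpar a
  -- cost
  let cost : (Fin (nb u w + 1) → EuclideanSpace ℝ ↥(Dw w)) → ENNReal := fun ω =>
    (NN685 u w 2 ω : ENNReal) + ∑ k ∈ Finset.range (nb u w - 2), ENNReal.ofReal (wt685 u w k) * (NN685 u w (2 + k + 1) ω : ENNReal)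
  have hcm : Measurable cost := by
    refine (meas_NN685 u w 2).add ?_
    exact Finset.measurable_fun_sum _ fun k _ => (meas_NN685 u w _).const_mul _
  have hcost : ∫⁻ ω, cost ω ∂(PC u w a) ≤ ENNReal.ofReal (K / u) := by
    refine le_trans ?_ ha
    simp only [cost]
    rw [lintegral_add_left (meas_NN685 u w 2), lintegral_finsetSum _ (fun k _ => (meas_NN685 u w _).const_mul _)]
    refine add_le_add (countC u w hpar a 2 (by omega)) (Finset.sum_le_sum fun k hk => ?_)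
    rw [Finset.mem_range] at hk
    rw [lintegral_const_mul _ (meas_NN685 u w _)]
    exact mul_le_mul' le_rfl (countC u w hpar a (2 + k + 1) (by omega))
  have hmark : PC u w a {ω | 1 ≤ cost ω} ≤ ENNReal.ofReal (K / u) := by
    have h1 := mul_meas_ge_le_lintegral₀ (μ := PC u w a) hcm.aemeasurable 1
    rw [one_mul] at h1
    exact h1.trans hcost
  have hdet : ∀ ω, cost ω < 1 → armOK true (0, 0) w (w / 4) u (12 * w) (extf (Dw w) (∑ k, ω k)) := by
    intro ω hω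
    have h1 : (NN685 u w 2 ω : ENNReal) < 1 := lt_of_le_of_lt le_self_add hω
    have h2 : ∑ k ∈ Finset.range (nb u w - 2), ENNReal.ofReal (wt685 u w k) * (NN685 u w (2 + k + 1) ω : ENNReal) < 1 :=
      lt_of_le_of_lt le_add_self hω
    have h3 : NN685 u w 2 ω = 0 := by
      have : NN685 u w 2 ω < 1 := by exact_mod_cast h1
      omega
    have h4 : ∑ k ∈ Finset.range (nb u w - 2), wt685 u w k * (NN685 u w (2 + k + 1) ω : ℝ) < 1 := by
      have h5 : ∑ k ∈ Finset.range (nb u w - 2), ENNReal.ofReal (wt685 u w k) * (NN685 u w (2 + k + 1) ω : ENNReal) =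
          ENNReal.ofReal (∑ k ∈ Finset.range (nb u w - 2), wt685 u w k * (NN685 u w (2 + k + 1) ω : ℝ)) := by
        rw [ENNReal.ofReal_sum_of_nonneg (fun k _ => mul_nonneg (wt_nonneg685 u w k) (Nat.cast_nonneg _))]
        refine Finset.sum_congr rfl fun k _ => ?_
        rw [ENNReal.ofReal_mul (wt_nonneg685 u w k), ENNReal.ofReal_natCast]
      rw [h5] at h2
      by_contra hc
      have h6 : ENNReal.ofReal 1 ≤ ENNReal.ofReal (∑ k ∈ Finset.range (nb u w - 2), wt685 u w k * (NN685 u w (2 + k + 1) ω : ℝ)) :=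
        ENNReal.ofReal_le_ofReal (not_lt.mp hc)
      rw [ENNReal.ofReal_one] at h6
      exact absurd (lt_of_le_of_lt h6 h2) (lt_irrefl _)
    refine det_finalC u w hpar (extf (Dw w) (∑ k, ω k)) (oracle (WC w) ω) ?_ ?_
    · intro s' hs'
      by_contra hcon
      unfold NN685 at h3
      have h7 := List.countP_eq_zero.mp h3 s' hs'
      exact h7 (@decide_eq_true _ (Classical.dec _) hcon)
    · have h8 : ∑ k ∈ Finset.range (nb u w - 2), 4 * ((((2 + k : ℕ) : ℝ) + u) ^ 9 * wi w (2 + k)) * (NN685 u w (2 + k + 1) ω : ℝ) < (w : ℝ) := by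
        have h9 : ∑ k ∈ Finset.range (nb u w - 2), 4 * ((((2 + k : ℕ) : ℝ) + u) ^ 9 * wi w (2 + k)) * (NN685 u w (2 + k + 1) ω : ℝ) =
            w * ∑ k ∈ Finset.range (nb u w - 2), wt685 u w k * (NN685 u w (2 + k + 1) ω : ℝ) := by
          rw [Finset.mul_sum]
          refine Finset.sum_congr rfl fun k _ => ?_
          unfold wt685
          field_simp
        rw [h9]
        calc (w : ℝ) * ∑ k ∈ Finset.range (nb u w - 2), wt685 u w k * (NN685 u w (2 + k + 1) ω : ℝ) < w * 1 := by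
              gcongr
          _ = w := mul_one _
      exact h8
  -- law
  have hlaw : (PC u w a).map (fun x => ∑ j, x j) = gf (Dw w) (Dw w) := by
    have h1 := law_sum (ι := ↥(Dw w)) (n := nb u w + 1) (fun k : Fin (nb u w + 1) => GC u w a k) (fun k => hG1 k)
    unfold PC gf
    rw [h1, hG2]
  have hms : MeasurableSet {x : EuclideanSpace ℝ ↥(Dw w) | ¬ armOK true (0, 0) w (w / 4) u (12 * w) (extf (Dw w) x)} :=
    (meas_armOK685 (fun x => extf (Dw w) x) (fun v => measurable_extf685 (Dw w) v) _ _ _ _ _ _).compl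
  unfold HypA
  rw [← hlaw, Measure.map_apply (measurable_sumE685 _) hms]
  refine (measure_mono ?_).trans hmark
  intro ω hω
  by_contra hc
  exact hω (hdet ω (not_le.mp hc))

theorem hyp_baseQ : ∃ u0 : ℕ, ∀ u ≥ u0, ∀ w : ℕ, 128 ≤ w → w < 64 ^ 5 * (Nat.log 2 w + u) ^ 16 →
    HypA u 12 (2 ^ 49 / u) w := by
  refine ⟨2 ^ 100, fun u hu w hw hlt => ?_⟩
  have hwu := F12_w u w hu hw hlt
  -- real parameters
  obtain ⟨U, hU⟩ : ∃ U : ℝ, U = u := ⟨_, rfl⟩
  have hU1 : (2 : ℝ) ^ 100 ≤ U := by rw [hU]; exact_mod_cast hu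
  have hUone : (1 : ℝ) ≤ U := le_trans (by norm_num) hU1
  have hU0 : 0 < U := by linarith
  have hwR : (w : ℝ) ≤ 2 ^ 46 * U ^ 16 := by rw [hU]; exact_mod_cast hwu
  have hw1 : (1 : ℝ) ≤ w := by
    have : 1 ≤ w := by omega
    exact_mod_cast this
  have hlogpos : 0 < Real.log U := Real.log_pos (lt_of_lt_of_le (by norm_num) hU1)
  -- the straight line
  obtain ⟨D, hD⟩ : ∃ D, D = Dw w := ⟨_, rfl⟩
  have hmem : ∀ i : ℤ, (w : ℤ) ≤ i → i ≤ 5 * w → (i, ((w / 2 : ℕ) : ℤ)) ∈ D := by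
    intro i h1 h2
    rw [hD]
    unfold Dw rect
    rw [Finset.mem_product, Finset.mem_Icc, Finset.mem_Icc]
    refine ⟨⟨?_, ?_⟩, ?_, ?_⟩
    · show (1 : ℤ) ≤ i; omega
    · show i ≤ 7 * w - 1; omega
    · show (1 : ℤ) ≤ ((w / 2 : ℕ) : ℤ); omega
    · show ((w / 2 : ℕ) : ℤ) ≤ w - 1; omega
  have harm : ∀ f : ℤ × ℤ → ℝ, (∀ i ∈ Finset.Icc (w : ℤ) (5 * w), f (i, ((w / 2 : ℕ) : ℤ)) ≤ U) →
      armOK true (0, 0) w (w / 4) U (12 * w) f := by
    intro f hf
    obtain ⟨p, hp1, hp2⟩ := F12_walk (4 * w) (w : ℤ) (5 * w) ((w / 2 : ℕ) : ℤ) (by push_cast; ring)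
    refine ⟨_, _, p, rfl, rfl, ?_, ?_⟩
    · intro z hz
      obtain ⟨h1, h2, h3⟩ := hp2 z hz
      refine ⟨?_, ?_⟩
      · unfold rect
        rw [Finset.mem_product, Finset.mem_Icc, Finset.mem_Icc, h1]
        refine ⟨⟨h2, h3⟩, ?_, ?_⟩ <;> omega
      · have h4 := hf z.1 (Finset.mem_Icc.2 ⟨h2, h3⟩)
        have h5 : place true (0, 0) z = (z.1, ((w / 2 : ℕ) : ℤ)) := by
          simp [place, h1]
        rw [h5]
        exact h4
    · rw [hp1]
      push_cast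
      linarith
  have hsub : {x : EuclideanSpace ℝ (D : Finset (ℤ × ℤ)) |
      ¬ armOK true (0, 0) w (w / 4) U (12 * w) (extf D x)} ⊆
      ⋃ i ∈ Finset.Icc (w : ℤ) (5 * w), {x | U ≤ extf D x (i, ((w / 2 : ℕ) : ℤ))} := by
    intro x hx
    by_contra hcon
    apply hx
    apply harm
    intro i hi
    by_contra h
    push Not at h
    apply hcon
    rw [Set.mem_iUnion₂]
    exact ⟨i, hi, h.le⟩
  -- tails
  have htail : ∀ i ∈ Finset.Icc (w : ℤ) (5 * w), gf D D {x | U ≤ extf D x (i, ((w / 2 : ℕ) : ℤ))} ≤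
      ENNReal.ofReal (Real.exp (-(U ^ 2 / (2 * (12 * Real.log U))))) := by
    intro i hi
    obtain ⟨hi1, hi2⟩ := Finset.mem_Icc.1 hi
    have hz := hmem i hi1 hi2
    have h := gauss_tail (Matrix.of fun x y : (D : Finset (ℤ × ℤ)) => (1 / 4) * green D x y)
      (F12_psd D) (fun j => if j = ⟨_, hz⟩ then 1 else 0) (12 * Real.log U) U (by positivity)
      hU0.le ?_
    · have e : {x : EuclideanSpace ℝ (D : Finset (ℤ × ℤ)) | U ≤ extf D x (i, ((w / 2 : ℕ) : ℤ))} =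
          {x | U ≤ ∑ j, (if j = (⟨_, hz⟩ : (D : Finset (ℤ × ℤ))) then (1 : ℝ) else 0) * x j} := by
        ext x
        simp only [Set.mem_ofPred_eq, ite_mul, one_mul, zero_mul, Finset.sum_ite_eq',
          Finset.mem_univ, if_true]
        unfold extf
        rw [dif_pos hz]
      rw [e]
      exact h
    · simp only [ite_mul, one_mul, zero_mul, mul_ite, mul_one, mul_zero, Finset.sum_ite_eq',
        Finset.mem_univ, if_true, Matrix.of_apply]
      have hg := green_log D (7 * w) (by omega) (by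
        intro x hx y hy
        rw [hD] at hx hy
        unfold Dw rect at hx hy
        rw [Finset.mem_product, Finset.mem_Icc, Finset.mem_Icc] at hx hy
        obtain ⟨⟨a1, a2⟩, a3, a4⟩ := hx
        obtain ⟨⟨b1, b2⟩, b3, b4⟩ := hy
        constructor
        · rw [abs_lt]; push_cast; constructor <;> omega
        · rw [abs_lt]; push_cast; constructor <;> omega) (i, ((w / 2 : ℕ) : ℤ))
      have h1 : (1 : ℝ) + 2 * ((7 * w : ℕ) : ℝ) ^ 2 ≤ U ^ 33 := by
        push_cast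
        calc (1 : ℝ) + 2 * (7 * (w : ℝ)) ^ 2 ≤ 99 * (w : ℝ) ^ 2 := by nlinarith
          _ ≤ 99 * (2 ^ 46 * U ^ 16) ^ 2 := by
            have := pow_le_pow_left₀ (by linarith) hwR 2
            linarith
          _ = (99 * 2 ^ 92) * U ^ 32 := by ring
          _ ≤ U * U ^ 32 := by
            refine mul_le_mul_of_nonneg_right (le_trans ?_ hU1) (by positivity)
            norm_num
          _ = U ^ 33 := by ring
      have h2 : Real.log (1 + 2 * ((7 * w : ℕ) : ℝ) ^ 2) ≤ 33 * Real.log U := by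
        have h3 := Real.log_le_log (by positivity) h1
        rw [Real.log_pow] at h3
        exact_mod_cast h3
      have hl2 : 0.6931 < Real.log 2 := by
        have := Real.log_two_gt_d9
        linarith
      have h3 : green D (i, ((w / 2 : ℕ) : ℤ)) (i, ((w / 2 : ℕ) : ℤ)) ≤ 48 * Real.log U := by
        refine hg.trans ?_
        rw [div_le_iff₀ (by linarith)]
        nlinarith
      linarith
  -- conclusion
  show gf (Dw w) (Dw w) {x | ¬ armOK true (0, 0) w (w / 4) u (12 * w) (extf (Dw w) x)} ≤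
    ENNReal.ofReal (2 ^ 49 / u)
  rw [← hD, ← hU]
  refine (measure_mono hsub).trans ((measure_biUnion_finset_le _ _).trans ?_)
  refine (Finset.sum_le_sum htail).trans ?_
  rw [Finset.sum_const, Int.card_Icc, nsmul_eq_mul]
  have hc : ((5 * (w : ℤ) + 1 - w).toNat : ENNReal) = ENNReal.ofReal (4 * w + 1) := by
    have : (5 * (w : ℤ) + 1 - w).toNat = 4 * w + 1 := by omega
    rw [this, ← ENNReal.ofReal_natCast]
    push_cast
    rfl
  rw [hc, ← ENNReal.ofReal_mul (by positivity)]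
  refine ENNReal.ofReal_le_ofReal ?_
  have h1 : Real.exp (-(U ^ 2 / (2 * (12 * Real.log U)))) ≤ Real.exp (-(17 * Real.log U)) := by
    rw [Real.exp_le_exp, neg_le_neg_iff, le_div_iff₀ (by positivity)]
    have h2 := F12_log U hUone
    have h3 : (1632 : ℝ) ≤ U := le_trans (by norm_num) hU1
    nlinarith
  have h2 : Real.exp (-(17 * Real.log U)) = (U ^ 17)⁻¹ := by
    rw [Real.exp_neg]
    congr 1
    rw [show (17 : ℝ) * Real.log U = ((17 : ℕ) : ℝ) * Real.log U by norm_num, Real.exp_nat_mul,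
      Real.exp_log hU0]
  rw [h2] at h1
  have h3 : (4 * (w : ℝ) + 1) * U ≤ 2 ^ 49 * U ^ 17 := by
    calc (4 * (w : ℝ) + 1) * U ≤ (5 * w) * U := by
          apply mul_le_mul_of_nonneg_right _ hU0.le
          linarith
      _ ≤ (5 * (2 ^ 46 * U ^ 16)) * U := by
          apply mul_le_mul_of_nonneg_right _ hU0.le
          linarith
      _ = (5 * 2 ^ 46) * U ^ 17 := by ring
      _ ≤ 2 ^ 49 * U ^ 17 := by
          apply mul_le_mul_of_nonneg_right _ (by positivity)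
          norm_num
  have hU17 : 0 < U ^ 17 := by positivity
  calc (4 * (w : ℝ) + 1) * Real.exp (-(U ^ 2 / (2 * (12 * Real.log U))))
      ≤ (4 * (w : ℝ) + 1) * (U ^ 17)⁻¹ := mul_le_mul_of_nonneg_left h1 (by positivity)
    _ ≤ 2 ^ 49 / U := by
      rw [← div_eq_mul_inv, div_le_div_iff₀ hU17 hU0]
      exact h3

/-- for all large `u` the local field at every scale `w ≥ 128` has an arm at level `u` with at most `12 w`
vertices, up to probability `1 / 64` -/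
theorem hyp_all_u : ∃ u0 : ℕ, ∀ u ≥ u0, ∀ w : ℕ, 128 ≤ w → HypA u 12 (1 / 64) w := by
  obtain ⟨a, ha⟩ := hyp_step
  obtain ⟨b, hb⟩ := hyp_base
  refine ⟨max a b, fun u hu w => ?_⟩
  induction w using Nat.strong_induction_on with
  | _ w ih =>
    intro hw
    by_cases h : 64 ^ 5 * (Nat.log 2 w + u) ^ 16 ≤ w
    · exact ha _ ((le_max_left a b).trans hu) w h (fun w' hw' hlt => ih w' hlt hw')
    · exact hb _ ((le_max_right a b).trans hu) w hw (not_le.mp h)

/-- the same up to probability `K / u` -/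
theorem hypQ : ∃ (K : ℝ) (u0 : ℕ), 0 < K ∧ 1 ≤ u0 ∧ ∀ u ≥ u0, ∀ w : ℕ, 128 ≤ w → HypA u 12 (K / u) w := by
  obtain ⟨K, a, hK, ha⟩ := hyp_stepQ
  obtain ⟨b, hb⟩ := hyp_baseQ
  obtain ⟨c, hc⟩ := hyp_all_u
  refine ⟨max K (2 ^ 49), a + b + c + 1, lt_max_of_lt_left hK, by omega, fun u hu w hw => ?_⟩
  have hu0 : (0 : ℝ) ≤ u := Nat.cast_nonneg _
  by_cases h : 64 ^ 5 * (Nat.log 2 w + u) ^ 16 ≤ w
  · refine (ha u (by omega) w h (fun w' hw' _ => hc u (by omega) w' hw')).trans ?_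
    exact ENNReal.ofReal_le_ofReal (div_le_div_of_nonneg_right (le_max_left _ _) hu0)
  · refine (hb u (by omega) w hw (not_le.mp h)).trans ?_
    exact ENNReal.ofReal_le_ofReal (div_le_div_of_nonneg_right (le_max_right _ _) hu0)

end H941.hypQ
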