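import Pool.Agent.KS6_63.GFF.C.annulus_high_
import Pool.Agent.KS6_63.GFF.Q.HypQ

/-!
Crossings of the annulus with probability close to one: quantitative bounds.
-/

open MeasureTheory ProbabilityTheory

namespace H941.annQ

open H941.annulus_high

/-- crossing of the annulus between `∂V_{αN}` and `∂V_{βN}` inside `V_{βN}` by a path of at most `len` vertices, all
of height at most `lam` -/
def Cross (α β : ℝ) (N : ℕ) (lam len : ℝ) (f : ℤ × ℤ → ℝ) : Prop :=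
  ∃ (u v : ℤ × ℤ) (p : grid.Walk u v),
    u ∈ innerBdry ⌊α * (N : ℝ)⌋₊ ∧ v ∈ innerBdry ⌊β * (N : ℝ)⌋₊ ∧
    (∀ z ∈ p.support, z ∈ box ⌊β * (N : ℝ)⌋₊ ∧ f z ≤ lam) ∧ (p.support.length : ℝ) ≤ len

theorem Cross.mono {α β : ℝ} {N : ℕ} {lam lam' len len' : ℝ} {f : ℤ × ℤ → ℝ} (h : Cross α β N lam len f)
    (h1 : lam ≤ lam') (h2 : len ≤ len') : Cross α β N lam' len' f := by
  obtain ⟨u, v, p, hu, hv, hp, hl⟩ := h
  exact ⟨u, v, p, hu, hv, fun z hz => ⟨(hp z hz).1, (hp z hz).2.trans h1⟩, hl.trans h2⟩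

theorem ann_core (α β : ℝ) (hα : 0 < α) (hαβ : α < β) (hβ : β < 1) :
    ∃ (ε : ℝ) (m : ℕ), 0 < ε ∧ ε ≤ 1 / 100 ∧ (m : ℝ) * ε + 14 * ε ≤ 1 / 2 ∧
      ∀ (N w d : ℕ) (lam C2 η : ℝ), w = ⌊ε * (N : ℝ)⌋₊ → 1 ≤ d → 2 * d ≤ w → 100 * (m + 1) ≤ w → 1 ≤ C2 → 0 ≤ η →
        (∀ j ≤ m, ∀ (o : Bool) (t : ℤ × ℤ), armAt (((j * w : ℕ) : ℤ), 0) w o t →
          gf (box N) (box N \ innerBdry N)
            {x | ¬ armOK o t w d lam (C2 * w) (extf (box N) x)} ≤ ENNReal.ofReal η) →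
        gf (box N) (box N \ innerBdry N)
            {x | ¬ Cross α β N lam (4 * (m + 1) * C2 * N) (extf (box N) x)} ≤
          ENNReal.ofReal (4 * (m + 1) * η) := by
  have hβ0 : 0 < β := hα.trans hαβ
  obtain ⟨ε, hεdef⟩ : ∃ ε : ℝ, ε = min α (1 - β) / 100 := ⟨_, rfl⟩
  have hε : 0 < ε := by
    rw [hεdef]
    have : 0 < min α (1 - β) := lt_min hα (by linarith)
    positivity
  have hεα : 100 * ε ≤ α := by
    rw [hεdef]
    linarith [min_le_left α (1 - β)]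
  have hεβ : 100 * ε ≤ 1 - β := by
    rw [hεdef]
    linarith [min_le_right α (1 - β)]
  have hε1 : ε ≤ 1 / 100 := by linarith
  obtain ⟨m, hmdef⟩ : ∃ m : ℕ, m = ⌈β / (2 * ε)⌉₊ + 1 := ⟨_, rfl⟩
  have hm1 : β / 2 + ε ≤ m * ε := by
    have h1 : β / (2 * ε) ≤ ⌈β / (2 * ε)⌉₊ := Nat.le_ceil _
    rw [hmdef]
    push_cast
    rw [div_le_iff₀ (by positivity)] at h1
    linarith
  have hm2 : m * ε ≤ β / 2 + 2 * ε := by
    have h1 : (⌈β / (2 * ε)⌉₊ : ℝ) < β / (2 * ε) + 1 := Nat.ceil_lt_add_one (by positivity)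
    rw [hmdef]
    push_cast
    have h2 : β / (2 * ε) * ε = β / 2 := by
      field_simp
    nlinarith
  refine ⟨ε, m, hε, hε1, by linarith, ?_⟩
  intro N w d lam1 C2 η hw hd1 h2d hwm hC2 hη harm
  have hw1 : (w : ℝ) ≤ ε * N := by
    rw [hw]
    exact Nat.floor_le (by positivity)
  have hw2 : ε * N < w + 1 := by
    rw [hw]
    exact Nat.lt_floor_add_one _
  have hwm' : (100 * ((m : ℝ) + 1)) ≤ w := by exact_mod_cast hwm
  have hmN : (0 : ℝ) ≤ N := Nat.cast_nonneg _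
  have hmm : (0 : ℝ) ≤ m := Nat.cast_nonneg _
  have hNε : 100 * ((m : ℝ) + 1) ≤ ε * N := hwm'.trans hw1
  -- the two boxes
  have ha : (100 * (ε * N) : ℝ) ≤ α * N := by nlinarith
  have ha1 : 4 * w + 20 ≤ ⌊α * (N : ℝ)⌋₊ := by
    apply Nat.le_floor
    push_cast
    nlinarith
  have hb1 : ⌊β * (N : ℝ)⌋₊ / 2 + 5 ≤ m * w := by
    have h1 : ((⌊β * (N : ℝ)⌋₊ / 2 : ℕ) : ℝ) ≤ (⌊β * (N : ℝ)⌋₊ : ℝ) / 2 := Nat.cast_div_le
    have h2 : (⌊β * (N : ℝ)⌋₊ : ℝ) ≤ β * N := Nat.floor_le (by positivity)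
    have h3 : (m : ℝ) * (ε * N - 1) ≤ m * w :=
      mul_le_mul_of_nonneg_left (by linarith) hmm
    have h4 : (β / 2 + ε) * N ≤ (m * ε) * N := mul_le_mul_of_nonneg_right hm1 hmN
    have h5 : ((⌊β * (N : ℝ)⌋₊ / 2 : ℕ) : ℝ) + 5 ≤ m * w := by nlinarith
    exact_mod_cast h5
  have hab : ⌊α * (N : ℝ)⌋₊ ≤ ⌊β * (N : ℝ)⌋₊ :=
    Nat.floor_mono (mul_le_mul_of_nonneg_right hαβ.le hmN)
  -- the arms
  let oo : Fin 4 → Bool := ![true, true, false, false]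
  let tt : ℕ → Fin 4 → ℤ × ℤ := fun j => ![(((j * w : ℕ) : ℤ) - 3 * w, 0 + w),
    (((j * w : ℕ) : ℤ) - 3 * w, 0 - 2 * w), (((j * w : ℕ) : ℤ) + w, 0 - 3 * w),
    (((j * w : ℕ) : ℤ) - 2 * w, 0 - 3 * w)]
  have hat : ∀ j k, armAt (((j * w : ℕ) : ℤ), 0) w (oo k) (tt j k) := by
    intro j k
    fin_cases k
    · exact Or.inl ⟨rfl, rfl⟩
    · exact Or.inr (Or.inl ⟨rfl, rfl⟩)
    · exact Or.inr (Or.inr (Or.inl ⟨rfl, rfl⟩))
    · exact Or.inr (Or.inr (Or.inr ⟨rfl, rfl⟩))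
  set I : Finset (ℕ × Fin 4) := Finset.range (m + 1) ×ˢ Finset.univ with hI
  have hcard : I.card = (m + 1) * 4 := by
    rw [hI, Finset.card_product, Finset.card_range, Finset.card_univ, Fintype.card_fin]
  have hsubset : {x : EuclideanSpace ℝ (box N : Finset (ℤ × ℤ)) |
      ¬ Cross α β N lam1 (4 * (m + 1) * C2 * N) (extf (box N) x)} ⊆
      ⋃ p ∈ I, {x | ¬ armOK (oo p.2) (tt p.1 p.2) w d lam1 (C2 * w) (extf (box N) x)} := by
    intro x hx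
    by_contra hcon
    apply hx
    simp only [Set.mem_iUnion, not_exists] at hcon
    have hok : ∀ j ≤ m, ∀ k, armOK (oo k) (tt j k) w d lam1 (C2 * w) (extf (box N) x) := by
      intro j hj k
      by_contra h1
      exact hcon (j, k) (by
        rw [hI, Finset.mem_product, Finset.mem_range]
        exact ⟨Nat.lt_succ_of_le hj, Finset.mem_univ _⟩) h1
    obtain ⟨u, v, p, hu, hv, hp, hlen⟩ := det_annulus ⌊α * (N : ℝ)⌋₊ ⌊β * (N : ℝ)⌋₊ w m d lam1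
      (C2 * w) (extf (box N) x) (by omega) hab (by omega) h2d ha1 hb1 (by positivity)
      (fun j hj => ⟨hok j hj 0, hok j hj 1, hok j hj 2, hok j hj 3⟩)
    refine ⟨u, v, p, hu, hv, hp, hlen.trans ?_⟩
    have h1 : (w : ℝ) ≤ N := by nlinarith
    have h2 : C2 * (w : ℝ) ≤ C2 * N := mul_le_mul_of_nonneg_left h1 (by linarith)
    have h3 : 4 * ((m : ℝ) + 1) * (C2 * w) ≤ 4 * (m + 1) * (C2 * N) :=
      mul_le_mul_of_nonneg_left h2 (by positivity)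
    linarith
  refine (measure_mono hsubset).trans ?_
  refine (measure_biUnion_finset_le I _).trans ?_
  have hle : ∀ p ∈ I, gf (box N) (box N \ innerBdry N)
      {x | ¬ armOK (oo p.2) (tt p.1 p.2) w d lam1 (C2 * w) (extf (box N) x)} ≤
      ENNReal.ofReal η := by
    intro p hp
    rw [hI, Finset.mem_product, Finset.mem_range] at hp
    exact harm p.1 (by omega) (oo p.2) (tt p.1 p.2) (hat p.1 p.2)
  refine (Finset.sum_le_sum hle).trans ?_
  rw [Finset.sum_const, hcard, nsmul_eq_mul, ← ENNReal.ofReal_natCast,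
    ← ENNReal.ofReal_mul (Nat.cast_nonneg _)]
  apply ENNReal.ofReal_le_ofReal
  push_cast
  linarith

/-- from the local field to the field on `V_N` -/
theorem arm_core (ε : ℝ) (hε : 0 < ε) (m : ℕ) (hm : (m : ℝ) * ε + 14 * ε ≤ 1 / 2) :
    ∃ C : ℝ, 1 ≤ C ∧ ∀ (N w d : ℕ) (g len p2 : ℝ), w = ⌊ε * (N : ℝ)⌋₊ → 64 ≤ d → 2 * d ≤ w →
      100 * (m + 1) ≤ w → 0 ≤ p2 → 0 < g →
      gf (Dw w) (Dw w) {x | ¬ armOK true (0, 0) w d g len (extf (Dw w) x)} ≤ ENNReal.ofReal p2 →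
      ∀ j ≤ m, ∀ (o : Bool) (t : ℤ × ℤ), armAt (((j * w : ℕ) : ℤ), 0) w o t →
          gf (box N) (box N \ innerBdry N)
            {x | ¬ armOK o t w d (9 / 4 * g) len (extf (box N) x)} ≤
            ENNReal.ofReal (p2 + Real.exp (-(g ^ 2 / C)) + C * ((w : ℝ) / d) ^ C * Real.exp (-(g / 4))) := by
  obtain ⟨C, hC, hfix⟩ := arm_fixed
  have hlog0 : 0 ≤ Real.log (4 / ε) ∨ True := Or.inr trivial
  set C' : ℝ := C * (1 + |Real.log (4 / ε)|) with hC'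
  have hCC : C ≤ C' := by
    rw [hC']
    have : 0 ≤ |Real.log (4 / ε)| := abs_nonneg _
    nlinarith
  refine ⟨C', hC.trans hCC, ?_⟩
  intro N w d g len p2 hw hd64 h2d hwm hp2 hg hloc j hj o t hot
  have hwpos : 0 < w := by omega
  have hwR : (0 : ℝ) < w := by exact_mod_cast hwpos
  have hw1 : (w : ℝ) ≤ ε * N := by
    rw [hw]
    exact Nat.floor_le (by positivity)
  have hw2 : ε * N < w + 1 := by
    rw [hw]
    exact Nat.lt_floor_add_one _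
  have hwm' : (100 * ((m : ℝ) + 1)) ≤ w := by exact_mod_cast hwm
  -- the geometry
  have hmw : (m : ℝ) * w + 12 * w + 100 ≤ (N : ℝ) / 2 := by
    have h1 : (m : ℝ) * w ≤ m * (ε * N) := mul_le_mul_of_nonneg_left hw1 (Nat.cast_nonneg _)
    have h2 : ((m : ℝ) * ε + 14 * ε) * N ≤ 1 / 2 * N :=
      mul_le_mul_of_nonneg_right hm (Nat.cast_nonneg _)
    have h3 : (100 : ℝ) ≤ w := by
      have : (0 : ℝ) ≤ m := Nat.cast_nonneg _
      linarith
    nlinarith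
  have hmw' : 2 * (m * w) + 24 * w + 200 ≤ N := by
    have : (2 * ((m : ℝ) * w) + 24 * w + 200) ≤ N := by linarith
    exact_mod_cast this
  have hjw : j * w ≤ m * w := Nat.mul_le_mul_right _ hj
  have hjw0 : 0 ≤ j * w := Nat.zero_le _
  obtain ⟨K, hK⟩ : ∃ K : ℕ, K = j * w := ⟨_, rfl⟩
  obtain ⟨M', hM'⟩ : ∃ M' : ℕ, M' = m * w := ⟨_, rfl⟩
  rw [← hK] at hjw hjw0 hot
  rw [← hM'] at hjw hmw'
  obtain ⟨hball, hsub⟩ := annulus_high_geo hjw hmw' hot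
  have hb2 := hfix (box N) (box N \ innerBdry N) Finset.sdiff_subset (2 * N) w d
    (((K : ℕ) : ℤ), 0) o t (9 / 4 * g) g len p2 hd64 h2d (by omega) hp2 hg
    (by linarith) hot hball hsub hloc
  refine hb2.trans (ENNReal.ofReal_le_ofReal ?_)
  have hNw : ((2 * N : ℕ) : ℝ) / w ≤ 4 / ε := by
    rw [div_le_div_iff₀ hwR hε]
    push_cast
    have : (1 : ℝ) ≤ w := by exact_mod_cast hwpos
    linarith [mul_comm (N : ℝ) ε, mul_assoc (2 : ℝ) N ε]
  have hNw1 : 1 ≤ ((2 * N : ℕ) : ℝ) / w := by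
    rw [le_div_iff₀ hwR]
    have h1 : w ≤ 2 * N := by omega
    have h2 : (w : ℝ) ≤ ((2 * N : ℕ) : ℝ) := by exact_mod_cast h1
    linarith
  have hl0 : 0 ≤ Real.log (((2 * N : ℕ) : ℝ) / w) := Real.log_nonneg hNw1
  have hl1 : Real.log (((2 * N : ℕ) : ℝ) / w) ≤ |Real.log (4 / ε)| :=
    (Real.log_le_log (by linarith) hNw).trans (le_abs_self _)
  have e1 : Real.exp (-((9 / 4 * g - 5 / 4 * g) ^ 2 / (C * (1 + Real.log (((2 * N : ℕ) : ℝ) / w))))) ≤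
      Real.exp (-(g ^ 2 / C')) := by
    rw [show 9 / 4 * g - 5 / 4 * g = g by ring, Real.exp_le_exp, neg_le_neg_iff]
    apply div_le_div_of_nonneg_left (by positivity)
    · apply mul_pos (by linarith)
      linarith
    · rw [hC']
      apply mul_le_mul_of_nonneg_left _ (by linarith)
      linarith
  have hwd : (1 : ℝ) ≤ (w : ℝ) / d := by
    have hd0 : (0 : ℝ) < d := by
      have : 0 < d := by omega
      exact_mod_cast this
    rw [le_div_iff₀ hd0, one_mul]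
    have : d ≤ w := by omega
    exact_mod_cast this
  have e2 : C * ((w : ℝ) / d) ^ C * Real.exp (-(g / 4)) ≤
      C' * ((w : ℝ) / d) ^ C' * Real.exp (-(g / 4)) := by
    apply mul_le_mul_of_nonneg_right _ (Real.exp_pos _).le
    have h3 : ((w : ℝ) / d) ^ C ≤ ((w : ℝ) / d) ^ C' := Real.rpow_le_rpow_of_exponent_le hwd hCC
    exact mul_le_mul hCC h3 (Real.rpow_nonneg (by linarith) _) (by linarith)
  linarith

end H941.annQ
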