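import Pool.Agent.KS6_63.GFF.Q.AnnQ

/-!
The two bounds for the probability that there is no short low crossing of the annulus.
-/

open MeasureTheory ProbabilityTheory

namespace H941.annQ

open H941.annulus_high H941.hypQ

/-- first bound: fixed length, level `9 / 4 u`, probability `K / u` -/
theorem ann1 (α β : ℝ) (hα : 0 < α) (hαβ : α < β) (hβ : β < 1) :
    ∃ (L0 K : ℝ) (N0 u0 : ℕ), 1 ≤ L0 ∧ 0 < K ∧ 1 ≤ u0 ∧ ∀ u ≥ u0, ∀ N ≥ N0,
      gf (box N) (box N \ innerBdry N) {x | ¬ Cross α β N (9 / 4 * u) (L0 * N) (extf (box N) x)} ≤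
        ENNReal.ofReal (K / u) := by
  obtain ⟨ε, m, hε, hε1, hm, hann⟩ := ann_core α β hα hαβ hβ
  obtain ⟨C, hC, harm⟩ := arm_core ε hε m hm
  obtain ⟨K, u0, hK, hu0, hhyp⟩ := hypQ
  obtain ⟨N0, hN0⟩ := exists_nat_ge ((256 + 100 * (m + 1) + 1) / ε)
  have h8 : 0 ≤ C * (8 : ℝ) ^ C := mul_nonneg (by linarith) (Real.rpow_nonneg (by norm_num) _)
  have hmm : (0 : ℝ) ≤ m := Nat.cast_nonneg _
  refine ⟨4 * (m + 1) * 12, 4 * (m + 1) * (K + C + 4 * (C * 8 ^ C)), N0, u0, by linarith, ?_, hu0, ?_⟩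
  · apply mul_pos (by linarith)
    linarith
  intro u hu N hN
  have hu1 : (1 : ℝ) ≤ u := by
    have : 1 ≤ u := hu0.trans hu
    exact_mod_cast this
  have hupos : (0 : ℝ) < u := by linarith
  have hNε : 256 + 100 * (m + 1) + 1 ≤ ε * N := by
    rw [div_le_iff₀ hε] at hN0
    have h1 : (N0 : ℝ) ≤ N := by exact_mod_cast hN
    nlinarith
  obtain ⟨w, hw⟩ : ∃ w : ℕ, w = ⌊ε * (N : ℝ)⌋₊ := ⟨_, rfl⟩
  have hw3 : 256 + 100 * (m + 1) ≤ w := by
    rw [hw]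
    apply Nat.le_floor
    push_cast
    linarith
  have hd64 : 64 ≤ w / 4 := by omega
  have h2d : 2 * (w / 4) ≤ w := by omega
  have hloc : gf (Dw w) (Dw w) {x | ¬ armOK true (0, 0) w (w / 4) u (12 * w) (extf (Dw w) x)} ≤
      ENNReal.ofReal (K / u) := hhyp u hu w (by omega)
  have hb := harm N w (w / 4) u (12 * w) (K / u) hw hd64 h2d (by omega) (by positivity) hupos hloc
  have hE : 0 ≤ K / u + Real.exp (-((u : ℝ) ^ 2 / C)) +
      C * ((w : ℝ) / ((w / 4 : ℕ) : ℝ)) ^ C * Real.exp (-((u : ℝ) / 4)) := by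
    have h1 : 0 ≤ ((w : ℝ) / ((w / 4 : ℕ) : ℝ)) ^ C := Real.rpow_nonneg (by positivity) _
    positivity
  refine (hann N w (w / 4) (9 / 4 * u) 12 _ hw (by omega) h2d (by omega) (by norm_num) hE hb).trans ?_
  apply ENNReal.ofReal_le_ofReal
  have hCpos : 0 < C := by linarith
  have e1 : Real.exp (-((u : ℝ) ^ 2 / C)) ≤ C / u := by
    refine (annulus_high_exp (x := (u : ℝ) ^ 2 / C) (by positivity)).trans ?_
    rw [one_div_div, div_le_div_iff₀ (by positivity) hupos]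
    have h1 : (u : ℝ) ≤ (u : ℝ) ^ 2 := by nlinarith
    exact mul_le_mul_of_nonneg_left h1 hCpos.le
  have hwd : (w : ℝ) / ((w / 4 : ℕ) : ℝ) ≤ 8 := by
    have h1 : (0 : ℝ) < ((w / 4 : ℕ) : ℝ) := by
      have : 0 < w / 4 := by omega
      exact_mod_cast this
    rw [div_le_iff₀ h1]
    have : w ≤ 8 * (w / 4) := by omega
    exact_mod_cast this
  have e2 : ((w : ℝ) / ((w / 4 : ℕ) : ℝ)) ^ C ≤ 8 ^ C :=
    Real.rpow_le_rpow (by positivity) hwd hCpos.le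
  have e3 : Real.exp (-((u : ℝ) / 4)) ≤ 4 / u := by
    refine (annulus_high_exp (x := (u : ℝ) / 4) (by positivity)).trans ?_
    rw [one_div_div]
  have e4 : C * ((w : ℝ) / ((w / 4 : ℕ) : ℝ)) ^ C * Real.exp (-((u : ℝ) / 4)) ≤
      C * 8 ^ C * (4 / u) := by
    apply mul_le_mul (mul_le_mul_of_nonneg_left e2 hCpos.le) e3 (Real.exp_pos _).le h8
  have e5 : K / u + Real.exp (-((u : ℝ) ^ 2 / C)) +
      C * ((w : ℝ) / ((w / 4 : ℕ) : ℝ)) ^ C * Real.exp (-((u : ℝ) / 4)) ≤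
      (K + C + 4 * (C * 8 ^ C)) / u := by
    have : (K + C + 4 * (C * 8 ^ C)) / u = K / u + C / u + C * 8 ^ C * (4 / u) := by ring
    rw [this]
    linarith
  calc 4 * ((m : ℝ) + 1) * (K / u + Real.exp (-((u : ℝ) ^ 2 / C)) +
        C * ((w : ℝ) / ((w / 4 : ℕ) : ℝ)) ^ C * Real.exp (-((u : ℝ) / 4)))
      ≤ 4 * ((m : ℝ) + 1) * ((K + C + 4 * (C * 8 ^ C)) / u) :=
        mul_le_mul_of_nonneg_left e5 (by linarith)
    _ = 4 * ((m : ℝ) + 1) * (K + C + 4 * (C * 8 ^ C)) / u := by ring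

/-- second bound: exponentially small in the level up to a power of the length -/
theorem ann2 (α β : ℝ) (hα : 0 < α) (hαβ : α < β) (hβ : β < 1) :
    ∃ s0 : ℝ, 0 < s0 ∧ ∀ s : ℝ, 0 < s → s ≤ s0 → ∃ K c : ℝ, 1 ≤ K ∧ 0 < c ∧
      ∀ (g C2 : ℝ) (N : ℕ), 1 ≤ g → 1 ≤ C2 → K * Real.exp (s * g) ≤ N →
        gf (box N) (box N \ innerBdry N)
            {x | ¬ Cross α β N (9 / 4 * g) (K * C2 * N) (extf (box N) x)} ≤
          ENNReal.ofReal (K * (Real.exp (-(c * g)) + 1 / C2 ^ 4)) := by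
  obtain ⟨ε, m, hε, hε1, hm, hann⟩ := ann_core α β hα hαβ hβ
  obtain ⟨C, hC, harm⟩ := arm_core ε hε m hm
  obtain ⟨u, hu, hhyp⟩ := hyp_all
  obtain ⟨A, c1, hA, hc1, hT2⟩ := arm_T2
  have hCpos : 0 < C := by linarith
  refine ⟨1 / (8 * C), by positivity, fun s hs hs0 => ?_⟩
  have hmm : (0 : ℝ) ≤ m := Nat.cast_nonneg _
  obtain ⟨B, hB⟩ : ∃ B : ℝ, B = 2 * (10 ^ 9 + 2) := ⟨_, rfl⟩
  have hB0 : 0 < B := by rw [hB]; norm_num
  have hBC : 0 ≤ C * B ^ C := mul_nonneg hCpos.le (Real.rpow_nonneg hB0.le _)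
  obtain ⟨Q, hQ⟩ : ∃ Q : ℝ, Q = 3 + A + C * B ^ C + (A * 12 * (u : ℝ) ^ 4) ^ 4 := ⟨_, rfl⟩
  have hQ0 : 3 ≤ Q := by
    rw [hQ]
    have : 0 ≤ (A * 12 * (u : ℝ) ^ 4) ^ 4 := by positivity
    linarith
  obtain ⟨K, hKdef⟩ : ∃ K : ℝ, K = 4 * (m + 1) * Q + (64 * (10 ^ 9 + 2) + 100 * (m + 1) + 1) / ε :=
    ⟨_, rfl⟩
  have hK2 : (64 * (10 ^ 9 + 2) + 100 * (m + 1) + 1) / ε ≤ K := by
    rw [hKdef]
    have : 0 ≤ 4 * ((m : ℝ) + 1) * Q := by positivity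
    linarith
  have hK3 : 4 * ((m : ℝ) + 1) * Q ≤ K := by
    rw [hKdef]
    have : 0 ≤ (64 * (10 ^ 9 + 2) + 100 * ((m : ℝ) + 1) + 1) / ε := by positivity
    linarith
  have hK4 : 4 * ((m : ℝ) + 1) ≤ K := by
    refine le_trans ?_ hK3
    nlinarith
  have hK1 : 1 ≤ K := by linarith
  obtain ⟨c, hc⟩ : ∃ c : ℝ, c = min (min c1 (2 * s)) (min (1 / C) (1 / 8)) := ⟨_, rfl⟩
  have hcpos : 0 < c := by
    rw [hc]
    exact lt_min (lt_min hc1 (by linarith)) (lt_min (by positivity) (by norm_num))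
  have hcc1 : c ≤ c1 := by rw [hc]; exact (min_le_left _ _).trans (min_le_left _ _)
  have hcs : c ≤ 2 * s := by rw [hc]; exact (min_le_left _ _).trans (min_le_right _ _)
  have hcC : c ≤ 1 / C := by rw [hc]; exact (min_le_right _ _).trans (min_le_left _ _)
  have hc8 : c ≤ 1 / 8 := by rw [hc]; exact (min_le_right _ _).trans (min_le_right _ _)
  refine ⟨K, c, hK1, hcpos, ?_⟩
  intro g C2 N hg hC2 hN
  have hg0 : 0 < g := by linarith
  have hC20 : 0 < C2 := by linarith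
  obtain ⟨E, hE⟩ : ∃ E : ℝ, E = Real.exp (s * g) := ⟨_, rfl⟩
  have hE1 : 1 ≤ E := by
    rw [hE]
    exact Real.one_le_exp (by positivity)
  rw [← hE] at hN
  obtain ⟨R, hR⟩ : ∃ R : ℕ, R = 10 ^ 9 + ⌈E⌉₊ := ⟨_, rfl⟩
  have hR9 : 10 ^ 9 ≤ R := by omega
  have hRE : E ≤ R := by
    have h1 : E ≤ ⌈E⌉₊ := Nat.le_ceil E
    rw [hR]
    push_cast
    linarith
  have hRup : (R : ℝ) ≤ (10 ^ 9 + 2) * E := by
    have h1 : (⌈E⌉₊ : ℝ) < E + 1 := Nat.ceil_lt_add_one (by linarith)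
    rw [hR]
    push_cast
    linarith
  have hRpos : 0 < R := by omega
  have hRR : (0 : ℝ) < R := by exact_mod_cast hRpos
  have hNε : 64 * (R : ℝ) + 100 * (m + 1) + 1 ≤ ε * N := by
    have h1 : (64 * (10 ^ 9 + 2) + 100 * ((m : ℝ) + 1) + 1) / ε * E ≤ N :=
      (mul_le_mul_of_nonneg_right hK2 (by linarith)).trans hN
    rw [div_mul_eq_mul_div, div_le_iff₀ hε] at h1
    have h2 : 64 * (R : ℝ) ≤ 64 * ((10 ^ 9 + 2) * E) := by linarith
    have h3 : (100 * ((m : ℝ) + 1) + 1) * 1 ≤ (100 * ((m : ℝ) + 1) + 1) * E :=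
      mul_le_mul_of_nonneg_left hE1 (by positivity)
    nlinarith
  obtain ⟨w, hw⟩ : ∃ w : ℕ, w = ⌊ε * (N : ℝ)⌋₊ := ⟨_, rfl⟩
  have hw3 : 64 * R + 100 * (m + 1) ≤ w := by
    rw [hw]
    apply Nat.le_floor
    push_cast
    linarith
  have hd64 : 64 ≤ w / R := by
    rw [Nat.le_div_iff_mul_le hRpos]
    omega
  have hdR : w / R * R ≤ w := Nat.div_mul_le_self w R
  have hdbig : 10 ^ 9 * (w / R) ≤ w := by
    calc 10 ^ 9 * (w / R) ≤ R * (w / R) := Nat.mul_le_mul_right _ hR9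
      _ = w / R * R := Nat.mul_comm _ _
      _ ≤ w := hdR
  have h2d : 2 * (w / R) ≤ w := by omega
  have hwpos : 0 < w := by omega
  have hwR : (0 : ℝ) < w := by exact_mod_cast hwpos
  have hdpos : (0 : ℝ) < ((w / R : ℕ) : ℝ) := by
    have : 0 < w / R := by omega
    exact_mod_cast this
  have hu' : (1 : ℝ) ≤ u := by exact_mod_cast hu
  set p2 : ℝ := 2 * Real.exp (-(c1 * g ^ 2)) + (A * 12 * (u : ℝ) ^ 4 / C2) ^ 4 +
    A * (((w / R : ℕ) : ℝ) / w) ^ 2 with hp2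
  have hloc : gf (Dw w) (Dw w) {x | ¬ armOK true (0, 0) w (w / R) g (C2 * w) (extf (Dw w) x)} ≤
      ENNReal.ofReal p2 :=
    hT2 u 12 (1 / 64) g C2 w (w / R) hu' (by norm_num) (by norm_num) (by norm_num) hg hC2
      (by omega) hdbig fun w' hw' _ => hhyp w' hw'
  have hp20 : 0 ≤ p2 := by positivity
  have hb := harm N w (w / R) g (C2 * w) p2 hw hd64 h2d (by omega) hp20 hg0 hloc
  have hrp : 0 ≤ ((w : ℝ) / ((w / R : ℕ) : ℝ)) ^ C := Real.rpow_nonneg (by positivity) _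
  have hEE : 0 ≤ p2 + Real.exp (-(g ^ 2 / C)) +
      C * ((w : ℝ) / ((w / R : ℕ) : ℝ)) ^ C * Real.exp (-(g / 4)) := by
    positivity
  have hfin := hann N w (w / R) (9 / 4 * g) C2 _ hw (by omega) h2d (by omega) hC2 hEE hb
  have hsub : {x : EuclideanSpace ℝ (box N : Finset (ℤ × ℤ)) |
      ¬ Cross α β N (9 / 4 * g) (K * C2 * N) (extf (box N) x)} ⊆
      {x | ¬ Cross α β N (9 / 4 * g) (4 * (m + 1) * C2 * N) (extf (box N) x)} := by
    intro x hx h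
    refine hx (h.mono le_rfl ?_)
    exact mul_le_mul_of_nonneg_right (mul_le_mul_of_nonneg_right hK4 hC20.le) (Nat.cast_nonneg _)
  refine (measure_mono hsub).trans (hfin.trans (ENNReal.ofReal_le_ofReal ?_))
  -- numerical estimates
  have hgg : g ≤ g ^ 2 := by nlinarith
  obtain ⟨X, hX⟩ : ∃ X : ℝ, X = Real.exp (-(c * g)) := ⟨_, rfl⟩
  have hX0 : 0 < X := by rw [hX]; exact Real.exp_pos _
  have e1 : Real.exp (-(c1 * g ^ 2)) ≤ X := by
    rw [hX, Real.exp_le_exp, neg_le_neg_iff]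
    calc c * g ≤ c1 * g := mul_le_mul_of_nonneg_right hcc1 hg0.le
      _ ≤ c1 * g ^ 2 := mul_le_mul_of_nonneg_left hgg hc1.le
  have e2 : (A * 12 * (u : ℝ) ^ 4 / C2) ^ 4 = (A * 12 * (u : ℝ) ^ 4) ^ 4 * (1 / C2 ^ 4) := by
    rw [div_pow]
    ring
  have hdw : ((w / R : ℕ) : ℝ) / w ≤ 1 / E := by
    rw [div_le_div_iff₀ hwR (by linarith)]
    have h1 : ((w / R : ℕ) : ℝ) * R ≤ w := by exact_mod_cast hdR
    have h2 : ((w / R : ℕ) : ℝ) * E ≤ ((w / R : ℕ) : ℝ) * R :=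
      mul_le_mul_of_nonneg_left hRE hdpos.le
    linarith
  have e3 : A * (((w / R : ℕ) : ℝ) / w) ^ 2 ≤ A * X := by
    apply mul_le_mul_of_nonneg_left _ (by linarith)
    have h1 : (((w / R : ℕ) : ℝ) / w) ^ 2 ≤ (1 / E) ^ 2 := pow_le_pow_left₀ (by positivity) hdw 2
    have h2 : ((1 : ℝ) / E) ^ 2 = Real.exp (-(2 * s * g)) := by
      rw [hE, one_div, ← Real.exp_neg, ← Real.exp_nat_mul]
      congr 1
      push_cast
      ring
    rw [h2] at h1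
    refine h1.trans ?_
    rw [hX, Real.exp_le_exp, neg_le_neg_iff]
    exact mul_le_mul_of_nonneg_right hcs hg0.le
  have e4 : Real.exp (-(g ^ 2 / C)) ≤ X := by
    rw [hX, Real.exp_le_exp, neg_le_neg_iff]
    calc c * g ≤ 1 / C * g := mul_le_mul_of_nonneg_right hcC hg0.le
      _ = g / C := by ring
      _ ≤ g ^ 2 / C := div_le_div_of_nonneg_right hgg hCpos.le
  have hwd : (w : ℝ) / ((w / R : ℕ) : ℝ) ≤ B * E := by
    rw [div_le_iff₀ hdpos]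
    have h2 : w < w / R * R + R := Nat.lt_div_mul_add (a := w) hRpos
    have h3 : w ≤ 2 * R * (w / R) := by
      have h4 : R ≤ w / R * R := Nat.le_mul_of_pos_left R (by omega)
      have h5 : 2 * R * (w / R) = w / R * R + w / R * R := by ring
      omega
    have h6 : (w : ℝ) ≤ 2 * R * ((w / R : ℕ) : ℝ) := by exact_mod_cast h3
    refine h6.trans ?_
    apply mul_le_mul_of_nonneg_right _ hdpos.le
    rw [hB]
    linarith
  have e5 : C * ((w : ℝ) / ((w / R : ℕ) : ℝ)) ^ C * Real.exp (-(g / 4)) ≤ C * B ^ C * X := by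
    have h1 : ((w : ℝ) / ((w / R : ℕ) : ℝ)) ^ C ≤ (B * E) ^ C :=
      Real.rpow_le_rpow (by positivity) hwd hCpos.le
    have h2 : (B * E) ^ C = B ^ C * Real.exp (s * g * C) := by
      rw [Real.mul_rpow hB0.le (by linarith), hE, ← Real.exp_mul]
    have h3 : s * g * C ≤ g / 8 := by
      have h4 : s * C ≤ 1 / 8 := by
        rw [le_div_iff₀ (by positivity)] at hs0
        linarith
      calc s * g * C = (s * C) * g := by ring
        _ ≤ 1 / 8 * g := mul_le_mul_of_nonneg_right h4 hg0.le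
        _ = g / 8 := by ring
    have h5 : Real.exp (s * g * C) * Real.exp (-(g / 4)) ≤ X := by
      rw [← Real.exp_add, hX, Real.exp_le_exp]
      have h6 : c * g ≤ 1 / 8 * g := mul_le_mul_of_nonneg_right hc8 hg0.le
      linarith
    calc C * ((w : ℝ) / ((w / R : ℕ) : ℝ)) ^ C * Real.exp (-(g / 4))
        ≤ C * (B * E) ^ C * Real.exp (-(g / 4)) := by gcongr
      _ = C * B ^ C * (Real.exp (s * g * C) * Real.exp (-(g / 4))) := by rw [h2]; ring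
      _ ≤ C * B ^ C * X := mul_le_mul_of_nonneg_left h5 hBC
  have hC24 : 0 ≤ 1 / C2 ^ 4 := by positivity
  have hkey : p2 + Real.exp (-(g ^ 2 / C)) +
      C * ((w : ℝ) / ((w / R : ℕ) : ℝ)) ^ C * Real.exp (-(g / 4)) ≤ Q * (X + 1 / C2 ^ 4) := by
    have h1 : 0 ≤ (A * 12 * (u : ℝ) ^ 4) ^ 4 := by positivity
    have h2 : Q * (X + 1 / C2 ^ 4) = (3 + A + C * B ^ C) * X + (A * 12 * (u : ℝ) ^ 4) ^ 4 * X +
        (3 + A + C * B ^ C) * (1 / C2 ^ 4) + (A * 12 * (u : ℝ) ^ 4) ^ 4 * (1 / C2 ^ 4) := by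
      rw [hQ]; ring
    have h3 : 0 ≤ (A * 12 * (u : ℝ) ^ 4) ^ 4 * X := mul_nonneg h1 hX0.le
    have h4 : 0 ≤ (3 + A + C * B ^ C) * (1 / C2 ^ 4) := mul_nonneg (by linarith) hC24
    rw [h2, hp2, e2]
    linarith
  calc 4 * ((m : ℝ) + 1) * (p2 + Real.exp (-(g ^ 2 / C)) +
      C * ((w : ℝ) / ((w / R : ℕ) : ℝ)) ^ C * Real.exp (-(g / 4)))
      ≤ 4 * ((m : ℝ) + 1) * (Q * (X + 1 / C2 ^ 4)) := mul_le_mul_of_nonneg_left hkey (by linarith)
    _ = 4 * ((m : ℝ) + 1) * Q * (X + 1 / C2 ^ 4) := by ring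
    _ ≤ K * (X + 1 / C2 ^ 4) := mul_le_mul_of_nonneg_right hK3 (by linarith)
    _ = K * (Real.exp (-(c * g)) + 1 / C2 ^ 4) := by rw [hX]

end H941.annQ
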