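import Pool.Agent.KS6_63.GFF.C.full_large_
import Pool.Agent.KS6_63.GFF.Q.AnnQ

/-!
Crossings at every real level with positive probability and a fixed bound for the length.
-/

open MeasureTheory ProbabilityTheory

namespace H941.annQ

open H941.full_large

/-- if crossings with at most `C N` vertices exist at level `L` with probability at least `3 / 4`, they exist at
every level with positive probability -/
theorem largeQ (α β : ℝ) (hα : 0 < α) (hαβ : α < β) (hβ : β < 1) (L C : ℝ) (N1 : ℕ)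
    (hN1 : ∀ N : ℕ, N1 ≤ N →
      gf (box N) (box N \ innerBdry N) {x | ¬ Cross α β N L (C * N) (extf (box N) x)} ≤ ENNReal.ofReal (1 / 4)) :
    ∃ N0 : ℕ, ∀ lam : ℝ, ∃ c : ℝ, 0 < c ∧ ∀ N : ℕ, N0 ≤ N → ∀ (Ω : Type*) [MeasurableSpace Ω] (P : Measure Ω)
      (η : ℤ × ℤ → Ω → ℝ), IsDGFF N η P →
      ENNReal.ofReal c ≤ P {ω | Cross α β N lam (C * N) (fun v => η v ω)} := by
  classical
  have hβ0 : 0 < β := hα.trans hαβ
  have h1β : 0 < 1 - β := by linarith
  obtain ⟨c', hc'⟩ : ∃ c' : ℝ, c' = (1 - β) ^ 2 / 64 := ⟨_, rfl⟩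
  have hc'0 : 0 < c' := by
    rw [hc']
    positivity
  obtain ⟨N3, hN3⟩ := fl_row_sum_ge β hβ0 hβ
  refine ⟨N1 + N3 + 1, fun lam => ?_⟩
  obtain ⟨b, hb⟩ : ∃ b : ℝ, b = max 1 ((L - lam) / c') := ⟨_, rfl⟩
  have hb1 : 1 ≤ b := by
    rw [hb]
    exact le_max_left _ _
  have hb2 : L - lam ≤ b * c' := by
    rw [← div_le_iff₀ hc'0, hb]
    exact le_max_right _ _
  refine ⟨(Real.sqrt (2 * Real.pi))⁻¹ * Real.exp (-((b + 1) ^ 2 / 2)) * (1 / 4),
    by positivity, fun N hN Ω _ P η hη => ?_⟩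
  have hNr : (1 : ℝ) ≤ N := by
    have : 1 ≤ N := by omega
    exact_mod_cast this
  have hP : IsProbabilityMeasure P := hη.gaussian.isProbabilityMeasure
  obtain ⟨M, hM⟩ : ∃ M : ℕ, M = ⌊β * (N : ℝ)⌋₊ := ⟨_, rfl⟩
  obtain ⟨M', hM'⟩ : ∃ M' : ℕ, M' = ⌊α * (N : ℝ)⌋₊ := ⟨_, rfl⟩
  have hM'M : M' ≤ M := by
    rw [hM, hM']
    exact Nat.floor_mono (mul_le_mul_of_nonneg_right hαβ.le (by positivity))
  have hMN : M ≤ N := by
    have h1 : (M : ℝ) ≤ β * N := by
      rw [hM]
      exact Nat.floor_le (by positivity)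
    have h2 : β * (N : ℝ) ≤ 1 * N := mul_le_mul_of_nonneg_right hβ.le (by positivity)
    have h3 : (M : ℝ) ≤ N := by linarith
    exact_mod_cast h3
  -- the law
  have hlaw := law_of_cov P (fun v : ↥(box N) => η v) hη.gaussian
    (fun i => hη.mean_zero i i.2)
    (Matrix.of fun i j : ↥(box N) => (1 / 4) * green (box N \ innerBdry N) i j) (fl_psd N)
    (fun i j => hη.cov i i.2 j j.2)
  obtain ⟨hX, hmap⟩ := hlaw
  set Γ : Matrix ↥(box N) ↥(box N) ℝ :=
    Matrix.of fun i j : ↥(box N) => (1 / 4) * green (box N \ innerBdry N) i j with hΓ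
  -- sums
  have hrow : ∀ i : ↥(box N), ∑ j : ↥(box N), Γ i j =
      (1 / 4) * ∑ v ∈ box N, green (box N \ innerBdry N) i v := by
    intro i
    rw [Finset.mul_sum]
    exact fl_sum_ext N (fun v => (1 / 4) * green (box N \ innerBdry N) i v)
  have hrow0 : ∀ i : ↥(box N), 0 ≤ ∑ j : ↥(box N), Γ i j := by
    intro i
    apply Finset.sum_nonneg
    intro j _
    exact mul_nonneg (by norm_num) ((green_basic _).1 _ _)
  obtain ⟨s2, hs2⟩ : ∃ s2 : ℝ, s2 = ∑ i : ↥(box N), ∑ j : ↥(box N), Γ i j := ⟨_, rfl⟩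
  have hs2le : s2 ≤ (N : ℝ) ^ 4 := by
    rw [hs2]
    calc ∑ i : ↥(box N), ∑ j : ↥(box N), Γ i j ≤
        ∑ _i : ↥(box N), (N : ℝ) ^ 2 := by
          refine Finset.sum_le_sum fun i _ => ?_
          rw [hrow]
          have := fl_row_sum_le N (by omega) i
          nlinarith
      _ = ((box N).card : ℝ) * (N : ℝ) ^ 2 := by
          rw [Finset.sum_const, nsmul_eq_mul, Finset.card_univ, Fintype.card_coe]
      _ ≤ (N : ℝ) ^ 2 * (N : ℝ) ^ 2 := by
          have h1 := fl_card_box N (by omega)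
          have h2 : ((box N).card : ℝ) ≤ (N : ℝ) ^ 2 := by exact_mod_cast h1
          exact mul_le_mul_of_nonneg_right h2 (by positivity)
      _ = (N : ℝ) ^ 4 := by ring
  have hge : ∀ a (ha : a ∈ box M), c' * (N : ℝ) ^ 2 ≤
      ∑ j : ↥(box N), Γ ⟨a, fl_box_mono hMN ha⟩ j := by
    intro a ha
    rw [hrow, hc']
    have := hN3 N (by omega) a (by rw [← hM]; exact ha)
    nlinarith
  have hs2pos : 0 < s2 := by
    have h0 : ((0 : ℤ), (0 : ℤ)) ∈ box M := by
      rw [fl_box_mem]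
      dsimp only
      omega
    have h1 := hge _ h0
    rw [hs2]
    refine lt_of_lt_of_le (by positivity) (h1.trans ?_)
    exact Finset.single_le_sum (f := fun i => ∑ j : ↥(box N), Γ i j) (fun i _ => hrow0 i)
      (Finset.mem_univ _)
  obtain ⟨σ, hσ⟩ : ∃ σ : ℝ, σ = Real.sqrt s2 := ⟨_, rfl⟩
  have hσ0 : 0 < σ := by
    rw [hσ]
    exact Real.sqrt_pos.2 hs2pos
  have hσ2 : σ ^ 2 = s2 := by
    rw [hσ, Real.sq_sqrt hs2pos.le]
  have hσle : σ ≤ (N : ℝ) ^ 2 := by
    rw [hσ, Real.sqrt_le_left (by positivity)]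
    refine hs2le.trans (le_of_eq ?_)
    ring
  obtain ⟨h, hh⟩ : ∃ h : EuclideanSpace ℝ ↥(box N), ∀ i, h i = (∑ j, Γ i j * 1) / σ :=
    ⟨WithLp.toLp 2 fun i => (∑ j, Γ i j * 1) / σ, fun i => rfl⟩
  have hh0 : ∀ i, 0 ≤ h i := by
    intro i
    rw [hh]
    simp only [mul_one]
    exact div_nonneg (hrow0 i) hσ0.le
  have hhc : ∀ a (ha : a ∈ box M), c' ≤ h ⟨a, fl_box_mono hMN ha⟩ := by
    intro a ha
    rw [hh]
    simp only [mul_one]
    rw [le_div_iff₀ hσ0]
    refine le_trans ?_ (hge a ha)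
    exact mul_le_mul_of_nonneg_left hσle hc'0.le
  -- the events
  let G : Finset (ℤ × ℤ) → Prop := fun T => ∃ (u v : ℤ × ℤ) (p : grid.Walk u v),
    u ∈ innerBdry M' ∧ v ∈ innerBdry M ∧ (∀ w ∈ p.support, w ∈ T) ∧
      (p.support.length : ℝ) ≤ C * N
  let EV : ℝ → Set (EuclideanSpace ℝ ↥(box N)) := fun t =>
    ⋃ T ∈ (box M).powerset.filter G, {x | ∀ w : ↥(box N), (w : ℤ × ℤ) ∈ T → x w ≤ t}
  have hEV : ∀ t, MeasurableSet (EV t) := by
    intro t
    refine Finset.measurableSet_biUnion _ fun T _ => ?_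
    have : {x : EuclideanSpace ℝ ↥(box N) | ∀ w : ↥(box N), (w : ℤ × ℤ) ∈ T → x w ≤ t} =
        ⋂ w : ↥(box N), {x | (w : ℤ × ℤ) ∈ T → x w ≤ t} := by
      ext x
      simp
    rw [this]
    refine MeasurableSet.iInter fun w => ?_
    by_cases hw : (w : ℤ × ℤ) ∈ T
    · simp only [hw, true_imp_iff]
      exact measurableSet_le (by fun_prop) measurable_const
    · simp only [hw, false_imp_iff]
      exact MeasurableSet.univ
  have hmemEV : ∀ (t : ℝ) (x : EuclideanSpace ℝ ↥(box N)), x ∈ EV t ↔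
      ∃ T, T ⊆ box M ∧ G T ∧ ∀ w : ↥(box N), (w : ℤ × ℤ) ∈ T → x w ≤ t := by
    intro t x
    simp only [EV, Set.mem_iUnion, Finset.mem_filter, Finset.mem_powerset, exists_prop,
      Set.mem_ofPred_eq, and_assoc]
  have hsb := shift_bound Γ (fl_psd N) (fun _ => 1) σ b hσ0 (by
      rw [hσ2, hs2]
      simp) h hh (EV L) (EV lam) (hEV L) (hEV lam) (by
      intro x hx t ht
      rw [hmemEV] at hx ⊢
      obtain ⟨T, h1, h2, h3⟩ := hx
      refine ⟨T, h1, h2, fun w hw => ?_⟩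
      have h4 := h3 w hw
      have h5 := mul_nonneg ht (hh0 w)
      have h6 : (x - t • h) w = x w - t * h w := rfl
      rw [h6]
      linarith) (by
      intro x hx
      rw [hmemEV] at hx ⊢
      obtain ⟨T, h1, h2, h3⟩ := hx
      refine ⟨T, h1, h2, fun w hw => ?_⟩
      have h4 := h3 w hw
      have h5 := hhc w (h1 hw)
      have h6 : (x - b • h) w = x w - b * h w := rfl
      rw [h6]
      have h7 : b * c' ≤ b * h w := mul_le_mul_of_nonneg_left h5 (by linarith)
      linarith)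
  -- the probability of `EV L`
  have hA : (1 : ENNReal) ≤ multivariateGaussian 0 Γ (EV L) + ENNReal.ofReal (1 / 4) := by
    have h1 := hN1 N (by omega)
    unfold Cross at h1
    rw [← hM, ← hM'] at h1
    have h2 : (1 : ENNReal) = multivariateGaussian (0 : EuclideanSpace ℝ ↥(box N)) Γ Set.univ :=
      measure_univ.symm
    rw [h2]
    refine le_trans ?_ (add_le_add_right h1 _)
    refine le_trans (measure_mono ?_) (measure_union_le _ _)
    intro x _
    by_cases hx : ∃ (u v : ℤ × ℤ) (p : grid.Walk u v), u ∈ innerBdry M' ∧ v ∈ innerBdry M ∧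
        (∀ z ∈ p.support, z ∈ box M ∧ extf (box N) x z ≤ L) ∧
        (p.support.length : ℝ) ≤ C * N
    · left
      obtain ⟨u, v, p, hu, hv, hp, hlen⟩ := hx
      rw [hmemEV]
      refine ⟨p.support.toFinset, ?_, ⟨u, v, p, hu, hv, ?_, hlen⟩, ?_⟩
      · intro w hw
        rw [List.mem_toFinset] at hw
        exact (hp w hw).1
      · intro w hw
        rw [List.mem_toFinset]
        exact hw
      · intro w hw
        rw [List.mem_toFinset] at hw
        have h3 := (hp w hw).2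
        unfold extf at h3
        rw [dif_pos w.2] at h3
        exact h3
    · right
      exact hx
  have hμB : P ((fun ω => (WithLp.toLp 2 (fun i : ↥(box N) => η i ω) :
      EuclideanSpace ℝ ↥(box N))) ⁻¹' EV lam) = multivariateGaussian 0 Γ (EV lam) := by
    rw [← hmap, Measure.map_apply_of_aemeasurable hX (hEV lam)]
  have hquarter : ENNReal.ofReal (1 / 4) ≤ multivariateGaussian 0 Γ (EV L) - 1 / 2 := by
    have h3 : (1 : ENNReal) = 1 / 2 + ENNReal.ofReal (1 / 4) + ENNReal.ofReal (1 / 4) := by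
      have : (1 / 2 : ENNReal) = ENNReal.ofReal (1 / 2) := by
        rw [ENNReal.ofReal_div_of_pos (by norm_num)]
        simp
      rw [this, ← ENNReal.ofReal_add (by norm_num) (by norm_num),
        ← ENNReal.ofReal_add (by norm_num) (by norm_num)]
      norm_num
    rw [h3] at hA
    have h4 := (ENNReal.add_le_add_iff_right ENNReal.ofReal_ne_top).1 hA
    exact ENNReal.le_sub_of_add_le_left (by norm_num) h4
  calc ENNReal.ofReal ((Real.sqrt (2 * Real.pi))⁻¹ * Real.exp (-((b + 1) ^ 2 / 2)) *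
          (1 / 4)) = ENNReal.ofReal ((Real.sqrt (2 * Real.pi))⁻¹ * Real.exp (-((b + 1) ^ 2 / 2))) *
          ENNReal.ofReal (1 / 4) := by
        rw [ENNReal.ofReal_mul (by positivity)]
    _ ≤ gaussianReal 0 1 (Set.Iic (-b)) * (multivariateGaussian 0 Γ (EV L) - 1 / 2) :=
        mul_le_mul' (fl_tail_ge b (by linarith)) hquarter
    _ ≤ multivariateGaussian 0 Γ (EV lam) := hsb
    _ = P ((fun ω => (WithLp.toLp 2 (fun i : ↥(box N) => η i ω) :
          EuclideanSpace ℝ ↥(box N))) ⁻¹' EV lam) := hμB.symm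
    _ ≤ _ := by
        refine measure_mono fun ω hω => ?_
        rw [Set.mem_preimage, hmemEV] at hω
        obtain ⟨T, h1, ⟨u, v, p, h2, h3, h4, h5⟩, h6⟩ := hω
        show Cross α β N lam (C * N) (fun v => η v ω)
        unfold Cross
        rw [← hM, ← hM']
        refine ⟨u, v, p, h2, h3, fun w hw => ?_, h5⟩
        have hwN := fl_box_mono hMN (h1 (h4 w hw))
        exact ⟨h1 (h4 w hw), h6 ⟨w, hwN⟩ (h4 w hw)⟩


end H941.annQ
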