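import Pool.Agent.KS6_63.GFF.C.full_large_
import Pool.Agent.KS6_63.GFF.C.full_small_
import Pool.Agent.KS6_63.GFF.Q.AnnQ

/-!
The union bound, the straight crossing, and the transfer between a process and its law.
-/

open MeasureTheory ProbabilityTheory

namespace H941.annQ

open H941.full_large

theorem union_bd (N : ℕ) (hN : 1 ≤ N) (lam : ℝ) (hlam : 0 ≤ lam) :
    gf (box N) (box N \ innerBdry N) {x | ∃ v ∈ box N, lam < extf (box N) x v} ≤
      ENNReal.ofReal ((N : ℝ) ^ 2 * Real.exp (-(lam ^ 2 / (2 * (1 + Real.log N))))) := by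
  classical
  have hN1 : (1 : ℝ) ≤ N := by exact_mod_cast hN
  have hlog : 0 ≤ Real.log N := Real.log_nonneg hN1
  have hsub : {x : EuclideanSpace ℝ (box N : Finset (ℤ × ℤ)) | ∃ v ∈ box N, lam < extf (box N) x v} ⊆
      ⋃ i ∈ (Finset.univ : Finset ↥(box N)), {x | lam ≤ ∑ j, (if j = i then (1 : ℝ) else 0) * x j} := by
    rintro x ⟨v, hv, hx⟩
    simp only [Set.mem_iUnion, Finset.mem_univ, exists_true_left]
    refine ⟨⟨v, hv⟩, ?_⟩
    simp only [Set.mem_ofPred_eq, ite_mul, one_mul, zero_mul, Finset.sum_ite_eq',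
      Finset.mem_univ, if_true]
    unfold extf at hx
    rw [dif_pos hv] at hx
    exact hx.le
  refine (measure_mono hsub).trans ((measure_biUnion_finset_le _ _).trans ?_)
  have htail : ∀ i ∈ (Finset.univ : Finset ↥(box N)),
      gf (box N) (box N \ innerBdry N) {x | lam ≤ ∑ j, (if j = i then (1 : ℝ) else 0) * x j} ≤
      ENNReal.ofReal (Real.exp (-(lam ^ 2 / (2 * (1 + Real.log N))))) := by
    intro i _
    refine gauss_tail (Matrix.of fun x y : ↥(box N) => (1 / 4) * green (box N \ innerBdry N) x y)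
      (fl_psd N) (fun j => if j = i then 1 else 0) (1 + Real.log N) lam (by linarith) hlam ?_
    simp only [ite_mul, one_mul, zero_mul, mul_ite, mul_one, mul_zero, Finset.sum_ite_eq',
        Finset.mem_univ, if_true, Matrix.of_apply]
    have hg := green_log (box N \ innerBdry N) N hN (by
      intro x hx y hy
      have hx' := (Finset.mem_sdiff.1 hx).1
      have hy' := (Finset.mem_sdiff.1 hy).1
      rw [fl_box_mem] at hx' hy'
      constructor
      · rw [abs_lt]; constructor <;> omega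
      · rw [abs_lt]; constructor <;> omega) i
    have h2 : Real.log (1 + 2 * (N : ℝ) ^ 2) ≤ 2 * (1 + Real.log N) := by
      have h3 : Real.log (1 + 2 * (N : ℝ) ^ 2) ≤ Real.log (Real.exp 2 * (N : ℝ) ^ 2) := by
        apply Real.log_le_log (by positivity)
        have h4 : (3 : ℝ) ≤ Real.exp 2 := by
          have := Real.add_one_le_exp (2 : ℝ)
          linarith
        nlinarith [pow_le_pow_left₀ (by norm_num : (0 : ℝ) ≤ 1) hN1 2]
      rw [Real.log_mul (Real.exp_pos _).ne' (by positivity), Real.log_exp, Real.log_pow] at h3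
      push_cast at h3
      linarith
    have hl2 : 0.6931 < Real.log 2 := by
      have := Real.log_two_gt_d9
      linarith
    have h5 : green (box N \ innerBdry N) i i ≤ 4 * (1 + Real.log N) := by
      refine hg.trans ?_
      rw [div_le_iff₀ (by linarith)]
      nlinarith
    linarith
  refine (Finset.sum_le_sum htail).trans ?_
  rw [Finset.sum_const, Finset.card_univ, Fintype.card_coe, nsmul_eq_mul, ← ENNReal.ofReal_natCast,
    ← ENNReal.ofReal_mul (Nat.cast_nonneg _)]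
  apply ENNReal.ofReal_le_ofReal
  apply mul_le_mul_of_nonneg_right _ (Real.exp_pos _).le
  have := fl_card_box N hN
  exact_mod_cast this

theorem straight (α β : ℝ) (hαβ : α < β) (hβ : β < 1) (N : ℕ) (h1 : 1 ≤ ⌊α * (N : ℝ)⌋₊) (lam : ℝ)
    (f : ℤ × ℤ → ℝ) (hf : ∀ v ∈ box N, f v ≤ lam) : Cross α β N lam N f := by
  have hN0 : (0 : ℝ) ≤ N := Nat.cast_nonneg N
  have h2 : ⌊α * (N : ℝ)⌋₊ ≤ ⌊β * (N : ℝ)⌋₊ := Nat.floor_mono (mul_le_mul_of_nonneg_right hαβ.le hN0)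
  have h3 : ⌊β * (N : ℝ)⌋₊ ≤ N := Nat.floor_le_of_le (by nlinarith)
  unfold Cross
  obtain ⟨a, ha⟩ : ∃ a, a = ⌊α * (N : ℝ)⌋₊ := ⟨_, rfl⟩
  obtain ⟨b, hb⟩ : ∃ b, b = ⌊β * (N : ℝ)⌋₊ := ⟨_, rfl⟩
  rw [← ha] at h1 h2
  rw [← hb] at h2 h3
  obtain ⟨p, hp1, hp2⟩ := H941.full_small.fs_hwalk ((a / 2 : ℕ) : ℤ) (b / 2 - a / 2) ((a / 2 : ℕ) : ℤ)
    ((b / 2 : ℕ) : ℤ) (by omega)
  have hbd : ∀ M : ℕ, ∀ y : ℤ, 1 ≤ M → (-(((M - 1) / 2 : ℕ) : ℤ)) ≤ y → y ≤ ((M / 2 : ℕ) : ℤ) →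
      ((((M / 2 : ℕ) : ℤ), y) : ℤ × ℤ) ∈ innerBdry M := by
    intro M y hM hy1 hy2
    unfold innerBdry
    classical
    refine Finset.mem_filter.2 ?_
    constructor
    · unfold box
      rw [Finset.mem_product, Finset.mem_Icc, Finset.mem_Icc]
      refine ⟨⟨?_, le_refl _⟩, hy1, hy2⟩
      show (-(((M - 1) / 2 : ℕ) : ℤ)) ≤ ((M / 2 : ℕ) : ℤ)
      omega
    · refine ⟨(((M / 2 : ℕ) : ℤ) + 1, y), ?_, ?_⟩
      · show |((M / 2 : ℕ) : ℤ) - (((M / 2 : ℕ) : ℤ) + 1)| + |y - y| = 1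
        simp
      · unfold box
        rw [Finset.mem_product, Finset.mem_Icc, Finset.mem_Icc]
        rintro ⟨⟨_, h⟩, _⟩
        have h' : ((M / 2 : ℕ) : ℤ) + 1 ≤ ((M / 2 : ℕ) : ℤ) := h
        omega
  refine ⟨_, _, p, ?_, ?_, ?_, ?_⟩
  · rw [← ha]
    exact hbd a _ h1 (by omega) (le_refl _)
  · rw [← hb]
    exact hbd b _ (by omega) (by omega) (by omega)
  · intro w hw
    obtain ⟨hw1, hw2, hw3⟩ := hp2 w hw
    have hwb : w ∈ box b := by
      rw [fl_box_mem, hw1]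
      refine ⟨⟨?_, ?_⟩, ?_, ?_⟩ <;> omega
    rw [← hb]
    exact ⟨hwb, hf w (fl_box_mono h3 hwb)⟩
  · rw [hp1]
    have : b / 2 - a / 2 + 1 ≤ N := by omega
    exact_mod_cast this

theorem Cross.congr {α β : ℝ} (hβ : β < 1) {N : ℕ} {lam len : ℝ} {f g : ℤ × ℤ → ℝ} (h : ∀ v ∈ box N, f v = g v)
    (hc : Cross α β N lam len f) : Cross α β N lam len g := by
  have h3 : ⌊β * (N : ℝ)⌋₊ ≤ N := Nat.floor_le_of_le (by nlinarith [Nat.cast_nonneg (α := ℝ) N])
  obtain ⟨u, v, p, hu, hv, hp, hl⟩ := hc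
  refine ⟨u, v, p, hu, hv, fun z hz => ⟨(hp z hz).1, ?_⟩, hl⟩
  rw [← h z (fl_box_mono h3 (hp z hz).1)]
  exact (hp z hz).2

open Classical in
theorem cross_iff (α β : ℝ) (N : ℕ) (lam len : ℝ) (f : ℤ × ℤ → ℝ) :
    Cross α β N lam len f ↔ ∃ T ∈ (box ⌊β * (N : ℝ)⌋₊).powerset.filter (fun T : Finset (ℤ × ℤ) =>
      ∃ (u v : ℤ × ℤ) (p : grid.Walk u v), u ∈ innerBdry ⌊α * (N : ℝ)⌋₊ ∧ v ∈ innerBdry ⌊β * (N : ℝ)⌋₊ ∧
        (∀ z ∈ p.support, z ∈ T) ∧ (p.support.length : ℝ) ≤ len), ∀ z ∈ T, f z ≤ lam := by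
  constructor
  · rintro ⟨a, b, p, ha, hb, h1, h2⟩
    refine ⟨p.support.toFinset, ?_, ?_⟩
    · rw [Finset.mem_filter, Finset.mem_powerset]
      refine ⟨?_, a, b, p, ha, hb, ?_, h2⟩
      · intro z hz
        rw [List.mem_toFinset] at hz
        exact (h1 z hz).1
      · intro z hz
        rw [List.mem_toFinset]
        exact hz
    · intro z hz
      rw [List.mem_toFinset] at hz
      exact (h1 z hz).2
  · rintro ⟨A, hA, h3⟩
    rw [Finset.mem_filter, Finset.mem_powerset] at hA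
    obtain ⟨hA1, a, b, p, ha, hb, h1, h2⟩ := hA
    exact ⟨a, b, p, ha, hb, fun z hz => ⟨hA1 (h1 z hz), h3 z (h1 z hz)⟩, h2⟩

theorem meas_cross {Ω : Type*} [MeasurableSpace Ω] (F : Ω → ℤ × ℤ → ℝ) (hF : ∀ v, Measurable (fun ω => F ω v))
    (α β : ℝ) (N : ℕ) (lam len : ℝ) : MeasurableSet {ω | Cross α β N lam len (F ω)} := by
  classical
  have h1 : {ω | Cross α β N lam len (F ω)} =
      ⋃ T ∈ (box ⌊β * (N : ℝ)⌋₊).powerset.filter (fun T : Finset (ℤ × ℤ) =>
      ∃ (u v : ℤ × ℤ) (p : grid.Walk u v), u ∈ innerBdry ⌊α * (N : ℝ)⌋₊ ∧ v ∈ innerBdry ⌊β * (N : ℝ)⌋₊ ∧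
        (∀ z ∈ p.support, z ∈ T) ∧ (p.support.length : ℝ) ≤ len), ⋂ z ∈ T, {ω | F ω z ≤ lam} := by
    ext ω
    rw [Set.mem_ofPred_eq, cross_iff]
    simp only [Set.mem_iUnion, Set.mem_iInter, Set.mem_ofPred_eq, exists_prop]
  rw [h1]
  refine Finset.measurableSet_biUnion _ fun A _ => ?_
  refine Finset.measurableSet_biInter _ fun z _ => ?_
  exact measurableSet_le (hF _) measurable_const

/-- transfer from the process to its law -/
theorem transfer (α β : ℝ) (hβ : β < 1) (N : ℕ) (lam len : ℝ) {Ω : Type*} [MeasurableSpace Ω] (P : Measure Ω)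
    (η : ℤ × ℤ → Ω → ℝ) (hη : IsDGFF N η P) :
    P {ω | ¬ Cross α β N lam len (fun v => η v ω)} =
      gf (box N) (box N \ innerBdry N) {x | ¬ Cross α β N lam len (extf (box N) x)} := by
  classical
  obtain ⟨hX, hmap⟩ := law_of_cov P (fun v : ↥(box N) => η v) hη.gaussian
    (fun i => hη.mean_zero i i.2)
    (Matrix.of fun i j : ↥(box N) => (1 / 4) * green (box N \ innerBdry N) i j) (fl_psd N)
    (fun i j => hη.cov i i.2 j j.2)
  have hms : MeasurableSet {x : EuclideanSpace ℝ ↥(box N) | ¬ Cross α β N lam len (extf (box N) x)} :=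
    (meas_cross (fun x => extf (box N) x) (fun v => H941.hyp_step.measurable_extf685 (box N) v) _ _ _ _ _).compl
  unfold gf
  rw [← hmap, Measure.map_apply_of_aemeasurable hX hms]
  congr 1
  ext ω
  simp only [Set.mem_preimage, Set.mem_ofPred_eq]
  have he : ∀ v ∈ box N, extf (box N) (WithLp.toLp 2 (fun i : ↥(box N) => η i ω) :
      EuclideanSpace ℝ ↥(box N)) v = η v ω := by
    intro v hv
    unfold extf
    rw [dif_pos hv]
  constructor
  · intro h hc
    exact h (hc.congr hβ (fun v hv => he v hv))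
  · intro h hc
    exact h (hc.congr hβ (fun v hv => (he v hv).symm))

end H941.annQ
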