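import Pool.Agent.KS6_63.GFF.Q.Bounds
import Pool.Agent.KS6_63.GFF.Q.LargeQ
import Pool.Agent.KS6_63.GFF.Q.UnionQ

/-!
Short low crossings of the annulus exist with probability close to one.
-/

open MeasureTheory ProbabilityTheory

namespace H941.annQ

open H941.full_large H941.annulus_high

lemma gf_prob (N : ℕ) : IsProbabilityMeasure (gf (box N) (box N \ innerBdry N)) := by
  unfold gf
  infer_instance

lemma bad_sub (α β : ℝ) (hαβ : α < β) (hβ : β < 1) (N : ℕ) (h1 : 1 ≤ ⌊α * (N : ℝ)⌋₊) (lam L : ℝ)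
    (hL : 1 ≤ L) :
    {x : EuclideanSpace ℝ (box N : Finset (ℤ × ℤ)) | ¬ Cross α β N lam (L * N) (extf (box N) x)} ⊆
      {x | ∃ v ∈ box N, lam < extf (box N) x v} := by
  intro x hx
  by_contra hcon
  apply hx
  have h2 : ∀ v ∈ box N, extf (box N) x v ≤ lam := by
    intro v hv
    by_contra h3
    exact hcon ⟨v, hv, not_le.mp h3⟩
  refine (straight α β hαβ hβ N h1 lam _ h2).mono le_rfl ?_
  have h4 : (0 : ℝ) ≤ N := Nat.cast_nonneg _
  nlinarith

lemma one_le_N {α : ℝ} (hα : 0 < α) {N : ℕ} (h1 : 1 ≤ ⌊α * (N : ℝ)⌋₊) : 1 ≤ N := by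
  rcases Nat.eq_zero_or_pos N with h | h
  · subst h
    simp at h1
  · exact h

theorem partA (α β : ℝ) (hα : 0 < α) (hαβ : α < β) (hβ : β < 1) :
    ∃ L0 K : ℝ, 1 ≤ L0 ∧ 1 ≤ K ∧ ∀ lam : ℝ, 0 < lam → ∀ N : ℕ, 1 ≤ ⌊α * (N : ℝ)⌋₊ →
      gf (box N) (box N \ innerBdry N) {x | ¬ Cross α β N lam (L0 * N) (extf (box N) x)} ≤
        ENNReal.ofReal (K / lam) := by
  obtain ⟨L0, K1, N0, u0, hL0, hK1, hu0, h⟩ := ann1 α β hα hαβ hβ
  obtain ⟨M, hM⟩ : ∃ M : ℝ, M = ((N0 : ℝ) + 1) ^ 2 * (2 * (1 + Real.log ((N0 : ℝ) + 1))) := ⟨_, rfl⟩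
  have hN00 : (0 : ℝ) ≤ N0 := Nat.cast_nonneg _
  have hlog0 : 0 ≤ Real.log ((N0 : ℝ) + 1) := Real.log_nonneg (by linarith)
  have hM0 : 0 ≤ M := by rw [hM]; positivity
  have hu00 : (0 : ℝ) ≤ u0 := Nat.cast_nonneg _
  obtain ⟨K, hK⟩ : ∃ K : ℝ, K = 1 + 5 * K1 + 3 * u0 + M := ⟨_, rfl⟩
  have hK1' : 1 ≤ K := by rw [hK]; linarith
  refine ⟨L0, K, hL0, hK1', ?_⟩
  intro lam hlam N h1
  have := gf_prob N
  by_cases hl : lam ≤ K
  · refine prob_le_one.trans ?_
    rw [← ENNReal.ofReal_one]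
    apply ENNReal.ofReal_le_ofReal
    rw [le_div_iff₀ hlam]
    linarith
  rw [not_le] at hl
  have hlam1 : 1 ≤ lam := by linarith
  by_cases hN : N0 ≤ N
  · obtain ⟨u, hu⟩ : ∃ u : ℕ, u = ⌊4 * lam / 9⌋₊ := ⟨_, rfl⟩
    have hu1 : u0 ≤ u := by
      rw [hu]
      apply Nat.le_floor
      rw [hK] at hl
      linarith
    have hu2 : (u : ℝ) ≤ 4 * lam / 9 := by
      rw [hu]
      exact Nat.floor_le (by positivity)
    have hu3 : 4 * lam / 9 < u + 1 := by
      rw [hu]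
      exact Nat.lt_floor_add_one _
    have hu4 : (1 : ℝ) ≤ u := by
      have : 1 ≤ u := hu0.trans hu1
      exact_mod_cast this
    have hsub : {x : EuclideanSpace ℝ (box N : Finset (ℤ × ℤ)) |
        ¬ Cross α β N lam (L0 * N) (extf (box N) x)} ⊆
        {x | ¬ Cross α β N (9 / 4 * u) (L0 * N) (extf (box N) x)} := by
      intro x hx hc
      exact hx (hc.mono (by linarith) le_rfl)
    refine (measure_mono hsub).trans ((h u hu1 N hN).trans (ENNReal.ofReal_le_ofReal ?_))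
    rw [div_le_div_iff₀ (by linarith) hlam]
    have h2 : 2 * lam / 9 ≤ u := by linarith
    have h3 : 5 * K1 ≤ K := by rw [hK]; linarith
    calc K1 * lam = 9 / 2 * K1 * (2 * lam / 9) := by ring
      _ ≤ 9 / 2 * K1 * u := mul_le_mul_of_nonneg_left h2 (by positivity)
      _ ≤ K * u := mul_le_mul_of_nonneg_right (by linarith) (by linarith)
  · rw [not_le] at hN
    have hN1 := one_le_N hα h1
    have hN1' : (1 : ℝ) ≤ N := by exact_mod_cast hN1
    refine (measure_mono (bad_sub α β hαβ hβ N h1 lam L0 hL0)).trans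
      ((union_bd N hN1 lam hlam.le).trans (ENNReal.ofReal_le_ofReal ?_))
    have hNlt : (N : ℝ) ≤ N0 + 1 := by
      have : N ≤ N0 + 1 := by omega
      exact_mod_cast this
    have hlN : 0 ≤ Real.log N := Real.log_nonneg hN1'
    have hlN2 : Real.log N ≤ Real.log ((N0 : ℝ) + 1) := Real.log_le_log (by linarith) hNlt
    have h2 : Real.exp (-(lam ^ 2 / (2 * (1 + Real.log N)))) ≤ (2 * (1 + Real.log N)) / lam ^ 2 := by
      refine (annulus_high_exp (x := lam ^ 2 / (2 * (1 + Real.log N))) (by positivity)).trans ?_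
      rw [one_div_div]
    have h3 : (2 * (1 + Real.log N)) / lam ^ 2 ≤ (2 * (1 + Real.log ((N0 : ℝ) + 1))) / lam := by
      rw [div_le_div_iff₀ (by positivity) hlam]
      have h4 : lam ≤ lam ^ 2 := by nlinarith
      have h5 : 2 * (1 + Real.log N) ≤ 2 * (1 + Real.log ((N0 : ℝ) + 1)) := by linarith
      exact mul_le_mul h5 h4 hlam.le (by positivity)
    calc (N : ℝ) ^ 2 * Real.exp (-(lam ^ 2 / (2 * (1 + Real.log N))))
        ≤ ((N0 : ℝ) + 1) ^ 2 * ((2 * (1 + Real.log ((N0 : ℝ) + 1))) / lam) := by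
          apply mul_le_mul _ (h2.trans h3) (Real.exp_pos _).le (by positivity)
          exact pow_le_pow_left₀ (by linarith) hNlt 2
      _ = M / lam := by rw [hM]; ring
      _ ≤ K / lam := by
          apply div_le_div_of_nonneg_right _ hlam.le
          rw [hK]
          linarith

theorem partB (α β : ℝ) (hα : 0 < α) (hαβ : α < β) (hβ : β < 1) :
    ∃ K c : ℝ, 1 ≤ K ∧ 0 < c ∧ ∀ lam L : ℝ, 0 < lam → 0 < L → ∀ N : ℕ, 1 ≤ ⌊α * (N : ℝ)⌋₊ →
      gf (box N) (box N \ innerBdry N) {x | ¬ Cross α β N lam (L * N) (extf (box N) x)} ≤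
        ENNReal.ofReal (K * (Real.exp (-(c * lam)) + 1 / L ^ 4)) := by
  obtain ⟨s0, hs0, h⟩ := ann2 α β hα hαβ hβ
  obtain ⟨s, hs⟩ : ∃ s : ℝ, s = min s0 (1 / 2) := ⟨_, rfl⟩
  have hspos : 0 < s := by rw [hs]; exact lt_min hs0 (by norm_num)
  have hss0 : s ≤ s0 := by rw [hs]; exact min_le_left _ _
  have hs2 : s ≤ 1 / 2 := by rw [hs]; exact min_le_right _ _
  obtain ⟨K1, c1, hK1, hc1, h⟩ := h s hspos hss0
  have hlK : 0 ≤ Real.log K1 := Real.log_nonneg hK1
  obtain ⟨g0, hg0⟩ : ∃ g0 : ℝ, g0 = 1 + (1 + Real.log K1) / s := ⟨_, rfl⟩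
  have hg01 : 1 ≤ g0 := by
    rw [hg0]
    have : 0 ≤ (1 + Real.log K1) / s := by positivity
    linarith
  obtain ⟨c, hc⟩ : ∃ c : ℝ, c = min (4 / 9 * c1) (4 / 9) := ⟨_, rfl⟩
  have hcpos : 0 < c := by rw [hc]; exact lt_min (by positivity) (by norm_num)
  have hc1' : c ≤ 4 / 9 * c1 := by rw [hc]; exact min_le_left _ _
  have hc2' : c ≤ 4 / 9 := by rw [hc]; exact min_le_right _ _
  obtain ⟨K, hK⟩ : ∃ K : ℝ, K = Real.exp (c * (9 / 4 * g0)) + K1 ^ 5 := ⟨_, rfl⟩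
  have hE1 : 0 < Real.exp (c * (9 / 4 * g0)) := Real.exp_pos _
  have hp1 : K1 ≤ K1 ^ 5 := le_self_pow₀ hK1 (by norm_num)
  have hp2 : K1 ^ 2 ≤ K1 ^ 5 := pow_le_pow_right₀ hK1 (by norm_num)
  have hp4 : K1 ^ 4 ≤ K1 ^ 5 := pow_le_pow_right₀ hK1 (by norm_num)
  have hKK : 1 ≤ K := by rw [hK]; linarith
  refine ⟨K, c, hKK, hcpos, ?_⟩
  intro lam L hlam hL N h1
  have := gf_prob N
  have hX0 : 0 < Real.exp (-(c * lam)) := Real.exp_pos _
  have hL4 : 0 < 1 / L ^ 4 := by positivity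
  have htriv : ∀ t : ℝ, 1 ≤ t → gf (box N) (box N \ innerBdry N)
      {x | ¬ Cross α β N lam (L * N) (extf (box N) x)} ≤ ENNReal.ofReal t := by
    intro t ht
    refine prob_le_one.trans ?_
    rw [← ENNReal.ofReal_one]
    exact ENNReal.ofReal_le_ofReal ht
  by_cases hl : lam ≤ 9 / 4 * g0
  · apply htriv
    have h2 : 1 ≤ Real.exp (c * (9 / 4 * g0)) * Real.exp (-(c * lam)) := by
      rw [← Real.exp_add]
      apply Real.one_le_exp
      have := mul_le_mul_of_nonneg_left hl hcpos.le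
      linarith
    have h3 : Real.exp (c * (9 / 4 * g0)) * Real.exp (-(c * lam)) ≤ K * Real.exp (-(c * lam)) := by
      apply mul_le_mul_of_nonneg_right _ hX0.le
      rw [hK]
      have : 0 ≤ K1 ^ 5 := by positivity
      linarith
    have h4 : 0 ≤ K * (1 / L ^ 4) := by positivity
    linarith
  rw [not_le] at hl
  by_cases hLK : L ≤ K1
  · apply htriv
    have h2 : 1 ≤ K * (1 / L ^ 4) := by
      rw [mul_one_div, le_div_iff₀ (by positivity), one_mul]
      have h3 : L ^ 4 ≤ K1 ^ 4 := pow_le_pow_left₀ hL.le hLK 4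
      rw [hK]
      linarith
    have h4 : 0 ≤ K * Real.exp (-(c * lam)) := by positivity
    linarith
  rw [not_le] at hLK
  obtain ⟨g, hg⟩ : ∃ g : ℝ, g = 4 / 9 * lam := ⟨_, rfl⟩
  have hlg : lam = 9 / 4 * g := by rw [hg]; ring
  have hgg0 : g0 ≤ g := by rw [hg]; linarith
  have hg1 : 1 ≤ g := by linarith
  have hgpos : 0 < g := by linarith
  by_cases hN : K1 * Real.exp (s * g) ≤ N
  · have h2 := h g (L / K1) N hg1 (by rw [le_div_iff₀ (by linarith)]; linarith) hN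
    have h3 : K1 * (L / K1) * N = L * N := by
      field_simp
    rw [h3, ← hlg] at h2
    refine h2.trans (ENNReal.ofReal_le_ofReal ?_)
    have h4 : 1 / (L / K1) ^ 4 = K1 ^ 4 * (1 / L ^ 4) := by
      field_simp
    have h5 : Real.exp (-(c1 * g)) ≤ Real.exp (-(c * lam)) := by
      rw [Real.exp_le_exp, neg_le_neg_iff, hg]
      have := mul_le_mul_of_nonneg_right hc1' hlam.le
      linarith
    rw [h4, mul_add, mul_add]
    have h6 : K1 * Real.exp (-(c1 * g)) ≤ K * Real.exp (-(c * lam)) := by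
      apply mul_le_mul _ h5 (Real.exp_pos _).le (by linarith)
      rw [hK]
      linarith
    have h7 : K1 * (K1 ^ 4 * (1 / L ^ 4)) ≤ K * (1 / L ^ 4) := by
      rw [← mul_assoc]
      apply mul_le_mul_of_nonneg_right _ hL4.le
      rw [hK]
      have : K1 * K1 ^ 4 = K1 ^ 5 := by ring
      linarith
    linarith
  · rw [not_le] at hN
    have hN1 := one_le_N hα h1
    have hN1' : (1 : ℝ) ≤ N := by exact_mod_cast hN1
    refine (measure_mono (bad_sub α β hαβ hβ N h1 lam L (by linarith))).trans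
      ((union_bd N hN1 lam hlam.le).trans (ENNReal.ofReal_le_ofReal ?_))
    have hlN : 0 ≤ Real.log N := Real.log_nonneg hN1'
    have hlN2 : Real.log N ≤ Real.log K1 + s * g := by
      have h2 : Real.log N ≤ Real.log (K1 * Real.exp (s * g)) := Real.log_le_log (by linarith) hN.le
      rwa [Real.log_mul (by positivity) (Real.exp_pos _).ne', Real.log_exp] at h2
    have hsg : 1 + Real.log K1 ≤ s * g := by
      have h2 : (1 + Real.log K1) / s ≤ g := by linarith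
      rw [div_le_iff₀ hspos] at h2
      linarith
    have h2 : 1 + Real.log N ≤ 2 * (s * g) := by linarith
    have h3 : 2 * g ≤ lam ^ 2 / (2 * (1 + Real.log N)) := by
      rw [le_div_iff₀ (by positivity)]
      have h4 : 2 * g * (2 * (1 + Real.log N)) ≤ 2 * g * (2 * (2 * (s * g))) :=
        mul_le_mul_of_nonneg_left (by linarith) (by linarith)
      have h5 : s * g ≤ 1 / 2 * g := mul_le_mul_of_nonneg_right hs2 hgpos.le
      have h6 : 2 * g * (2 * (2 * (s * g))) ≤ 2 * g * (2 * (2 * (1 / 2 * g))) :=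
        mul_le_mul_of_nonneg_left (by linarith) (by linarith)
      rw [hlg]
      nlinarith
    have h4 : (N : ℝ) ^ 2 ≤ K1 ^ 2 * Real.exp g := by
      have h5 : (N : ℝ) ^ 2 ≤ (K1 * Real.exp (s * g)) ^ 2 := pow_le_pow_left₀ (by linarith) hN.le 2
      refine h5.trans ?_
      rw [mul_pow]
      apply mul_le_mul_of_nonneg_left _ (by positivity)
      rw [← Real.exp_nat_mul, Real.exp_le_exp]
      push_cast
      nlinarith
    calc (N : ℝ) ^ 2 * Real.exp (-(lam ^ 2 / (2 * (1 + Real.log N))))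
        ≤ K1 ^ 2 * Real.exp g * Real.exp (-(2 * g)) := by
          apply mul_le_mul h4 _ (Real.exp_pos _).le (by positivity)
          rw [Real.exp_le_exp]
          linarith
      _ = K1 ^ 2 * Real.exp (-g) := by
          rw [mul_assoc, ← Real.exp_add]
          congr 2
          ring
      _ ≤ K * Real.exp (-(c * lam)) := by
          apply mul_le_mul _ _ (Real.exp_pos _).le (by linarith)
          · rw [hK]
            linarith
          · rw [Real.exp_le_exp, neg_le_neg_iff, hg]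
            exact mul_le_mul_of_nonneg_right hc2' hlam.le
      _ ≤ K * (Real.exp (-(c * lam)) + 1 / L ^ 4) := by
          apply mul_le_mul_of_nonneg_left _ (by linarith)
          linarith

/-- small boxes -/
theorem smallQ (α β : ℝ) (hαβ : α < β) (hβ : β < 1) (lam : ℝ) (hlam : 0 ≤ lam) (N : ℕ)
    (h1 : 1 ≤ ⌊α * (N : ℝ)⌋₊) (L0 : ℝ) (hL0 : 1 ≤ L0) :
    ∃ q : ℝ, 0 < q ∧ ∀ (Ω : Type*) [MeasurableSpace Ω] (P : Measure Ω) (η : ℤ × ℤ → Ω → ℝ), IsDGFF N η P →
      ENNReal.ofReal q ≤ P {ω | Cross α β N lam (L0 * N) (fun v => η v ω)} := by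
  classical
  obtain ⟨q, hq, hqle⟩ := H941.full_small.fs_gauss
    (Matrix.of fun i j : ↥(box N) => (1 / 4) * green (box N \ innerBdry N) i j) (fl_psd N)
    (fun i j => mul_nonneg (by norm_num) ((green_basic _).1 _ _)) lam hlam
  refine ⟨q, hq, fun Ω _ P η hη => ?_⟩
  obtain ⟨hX, hmap⟩ := law_of_cov P (fun v : ↥(box N) => η v) hη.gaussian
    (fun i => hη.mean_zero i i.2)
    (Matrix.of fun i j : ↥(box N) => (1 / 4) * green (box N \ innerBdry N) i j) (fl_psd N)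
    (fun i j => hη.cov i i.2 j j.2)
  rw [← hmap] at hqle
  refine hqle.trans ?_
  have hB : MeasurableSet {x : EuclideanSpace ℝ ↥(box N) | ∀ i, x i ≤ lam} := by
    have : {x : EuclideanSpace ℝ ↥(box N) | ∀ i, x i ≤ lam} =
        ⋂ i, {x : EuclideanSpace ℝ ↥(box N) | x i ≤ lam} := by
      ext x; simp
    rw [this]
    refine MeasurableSet.iInter fun i => measurableSet_le (by fun_prop) (by fun_prop)
  rw [Measure.map_apply_of_aemeasurable hX hB]
  refine measure_mono ?_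
  intro ω hω
  have hω' : ∀ z ∈ box N, η z ω ≤ lam := fun z hz => hω ⟨z, hz⟩
  refine (straight α β hαβ hβ N h1 lam _ hω').mono le_rfl ?_
  have h4 : (0 : ℝ) ≤ N := Nat.cast_nonneg _
  nlinarith

theorem partC (α β : ℝ) (hα : 0 < α) (hαβ : α < β) (hβ : β < 1) (L0 K : ℝ) (hL0 : 1 ≤ L0) (hK : 1 ≤ K)
    (hA : ∀ lam : ℝ, 0 < lam → ∀ N : ℕ, 1 ≤ ⌊α * (N : ℝ)⌋₊ →
      gf (box N) (box N \ innerBdry N) {x | ¬ Cross α β N lam (L0 * N) (extf (box N) x)} ≤
        ENNReal.ofReal (K / lam)) :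
    ∃ N0 : ℕ, ∀ lam : ℝ, ∃ q : ℝ, 0 < q ∧ ∀ N : ℕ, 1 ≤ ⌊α * (N : ℝ)⌋₊ → (0 ≤ lam ∨ N0 ≤ N) →
      ∀ (Ω : Type*) [MeasurableSpace Ω] (P : Measure Ω) (η : ℤ × ℤ → Ω → ℝ), IsDGFF N η P →
        ENNReal.ofReal q ≤ P {ω | Cross α β N lam (L0 * N) (fun v => η v ω)} := by
  have hN1 : ∀ N : ℕ, ⌈1 / α⌉₊ ≤ N →
      gf (box N) (box N \ innerBdry N) {x | ¬ Cross α β N (4 * K) (L0 * N) (extf (box N) x)} ≤
        ENNReal.ofReal (1 / 4) := by
    intro N hN
    have h1 : 1 ≤ ⌊α * (N : ℝ)⌋₊ := by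
      apply Nat.le_floor
      have h2 : 1 / α ≤ N := (Nat.le_ceil _).trans (by exact_mod_cast hN)
      rw [div_le_iff₀ hα] at h2
      push_cast
      linarith
    refine (hA (4 * K) (by linarith) N h1).trans (ENNReal.ofReal_le_ofReal (le_of_eq ?_))
    field_simp
  obtain ⟨N0, hN0⟩ := largeQ α β hα hαβ hβ (4 * K) L0 ⌈1 / α⌉₊ hN1
  refine ⟨N0, fun lam => ?_⟩
  obtain ⟨c0, hc0, hlarge⟩ := hN0 lam
  by_cases hlam : 0 ≤ lam
  · have hsm : ∀ N : ℕ, ∃ c : ℝ, 0 < c ∧ (1 ≤ ⌊α * (N : ℝ)⌋₊ →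
        ∀ (Ω : Type _) [MeasurableSpace Ω] (P : Measure Ω) (η : ℤ × ℤ → Ω → ℝ), IsDGFF N η P →
        ENNReal.ofReal c ≤ P {ω | Cross α β N lam (L0 * N) (fun v => η v ω)}) := by
      intro N
      by_cases h1 : 1 ≤ ⌊α * (N : ℝ)⌋₊
      · obtain ⟨c, hc, h⟩ := smallQ α β hαβ hβ lam hlam N h1 L0 hL0
        exact ⟨c, hc, fun _ => h⟩
      · exact ⟨1, one_pos, fun h => absurd h h1⟩
    choose cf hcf hcfP using hsm
    have hne : (Finset.range (N0 + 1)).Nonempty := ⟨0, by simp⟩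
    refine ⟨min c0 ((Finset.range (N0 + 1)).inf' hne cf), lt_min hc0 ?_, ?_⟩
    · rw [Finset.lt_inf'_iff]
      intro N _
      exact hcf N
    · intro N h1 _ Ω _ P η hη
      by_cases hN : N0 ≤ N
      · exact (ENNReal.ofReal_le_ofReal (min_le_left _ _)).trans (hlarge N hN Ω P η hη)
      · exact (ENNReal.ofReal_le_ofReal ((min_le_right _ _).trans
          (Finset.inf'_le cf (Finset.mem_range.mpr (by omega))))).trans (hcfP N h1 Ω P η hη)
  · refine ⟨c0, hc0, ?_⟩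
    intro N _ h Ω _ P η hη
    rcases h with h | h
    · exact absurd h hlam
    · exact hlarge N h Ω P η hη

end H941.annQ
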